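import Pool.Agent.H577.Kim.Stm

/-!
KCHAR: the `p`-adic Kummer character of `(t - a) / (t - b)` on the geometric Galois group.
-/

open scoped Pointwise TensorProduct Topology Polynomial NNReal

noncomputable section

namespace Pool.Agent.H577.Kim.D79

open Y680 Y680.V Polynomial
open Y680.W (GG Gam Qb map_Qb)
open Y680.W.K3
open Pool.Agent.H577.Kim

/-- compatible roots -/
theorem exists_roots (p : ℕ) (hp : 0 < p) (F : Om) :
    ∃ y : ℕ → Om, y 0 = F ∧ ∀ k, y (k + 1) ^ p = y k := by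
  have h : ∀ x : Om, ∃ z : Om, z ^ p = x := fun x => IsAlgClosed.exists_pow_nat_eq x hp
  choose r hr using h
  exact ⟨fun k => Nat.rec F (fun _ x => r x) k, rfl, fun k => hr _⟩

theorem pow_root {p : ℕ} {y : ℕ → Om} (h : ∀ k, y (k + 1) ^ p = y k) (k : ℕ) :
    y k ^ (p ^ k) = y 0 := by
  induction k with
  | zero => rw [pow_zero, pow_one]
  | succ k ih => rw [pow_succ', pow_mul, h, ih]

theorem exists_zeta (p : ℕ) [hp : Fact p.Prime] :
    ∃ ζ : ℕ → Om, (∀ k, ζ (k + 1) ^ p = ζ k) ∧ ∀ k, IsPrimitiveRoot (ζ k) (p ^ k) := by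
  have hstep : ∀ (k : ℕ) (x : Om), IsPrimitiveRoot x (p ^ k) →
      ∃ z : Om, IsPrimitiveRoot z (p ^ (k + 1)) ∧ z ^ p = x := by
    intro k x hx
    rcases Nat.eq_zero_or_pos k with rfl | hk
    · have : NeZero (p : Om) := ⟨by exact_mod_cast hp.out.ne_zero⟩
      obtain ⟨z, hz⟩ := HasEnoughRootsOfUnity.exists_primitiveRoot Om p
      refine ⟨z, by rw [zero_add, pow_one]; exact hz, ?_⟩
      rw [hz.pow_eq_one]
      rw [pow_zero] at hx
      exact (IsPrimitiveRoot.one_right_iff.1 hx).symm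
    · obtain ⟨z, hz⟩ := IsAlgClosed.exists_pow_nat_eq x hp.out.pos
      refine ⟨z, ?_, hz⟩
      have h1 : orderOf z = p ^ (k + 1) := by
        apply orderOf_eq_prime_pow
        · obtain ⟨m, rfl⟩ : ∃ m, k = m + 1 := ⟨k - 1, by omega⟩
          rw [pow_succ' p m, pow_mul, hz]
          intro h
          have h2 := Nat.le_of_dvd (pow_pos hp.out.pos _) (hx.dvd_of_pow_eq_one _ h)
          have h3 : p ^ m < p ^ (m + 1) := Nat.pow_lt_pow_right hp.out.one_lt (by omega)
          omega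
        · rw [pow_succ', pow_mul, hz, hx.pow_eq_one]
      rw [← h1]
      exact IsPrimitiveRoot.orderOf z
  choose! r hr using hstep
  let g : (k : ℕ) → {x : Om // IsPrimitiveRoot x (p ^ k)} := fun k =>
    Nat.rec (motive := fun k => {x : Om // IsPrimitiveRoot x (p ^ k)})
      ⟨1, by rw [pow_zero]; exact IsPrimitiveRoot.one⟩
      (fun k x => ⟨r k x.1, (hr k x.1 x.2).1⟩) k
  exact ⟨fun k => (g k).1, fun k => (hr k _ (g k).2).2, fun k => (g k).2⟩

theorem modEq_of_congr {q : ℕ} {z : Om} {m n : ℕ} (hq : q ≠ 0)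
    (hz : IsPrimitiveRoot z q) (h : z ^ m = z ^ n) : m ≡ n [MOD q] := by
  have hz0 : z ≠ 0 := hz.ne_zero hq
  have key : ∀ m n : ℕ, m ≤ n → z ^ m = z ^ n → m ≡ n [MOD q] := by
    intro m n hmn h
    obtain ⟨j, rfl⟩ := Nat.exists_eq_add_of_le hmn
    rw [pow_add] at h
    have h1 : z ^ j = 1 := by
      have : z ^ m * z ^ j = z ^ m * 1 := by rw [mul_one]; exact h.symm
      exact mul_left_cancel₀ (pow_ne_zero _ hz0) this
    have h2 := (hz.pow_eq_one_iff_dvd _).1 h1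
    refine (Nat.modEq_iff_dvd' hmn).2 ?_
    rw [Nat.add_sub_cancel_left]
    exact h2
  rcases le_total m n with h' | h'
  · exact key _ _ h' h
  · exact (key _ _ h' h.symm).symm

theorem eq_of_congr {p : ℕ} [hp : Fact p.Prime] {z : Om} {k m n : ℕ}
    (hz : IsPrimitiveRoot z (p ^ k)) (h : z ^ m = z ^ n) : (m : ZMod (p ^ k)) = n :=
  (ZMod.natCast_eq_natCast_iff _ _ _).2
    (modEq_of_congr (pow_ne_zero _ hp.out.ne_zero) hz h)

theorem kchar : S_KCHAR := by
  intro p hp a b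
  have hp0 : 0 < p := hp.out.pos
  set F : Om := (W.tt - (a : Om)) / (W.tt - (b : Om)) with hF
  have hta : ∀ c : Qb, W.tt - (c : Om) ≠ 0 := by
    intro c h
    apply Y680.W.tt_notMem
    rw [sub_eq_zero.1 h]
    exact c.2
  have hF0 : F ≠ 0 := div_ne_zero (hta a) (hta b)
  obtain ⟨y, hy0, hy⟩ := exists_roots p hp0 F
  obtain ⟨ζ, hζ, hζp⟩ := exists_zeta p
  have hyk : ∀ k, y k ^ (p ^ k) = F := fun k => (pow_root hy k).trans hy0
  have hy1 : ∀ k, y k ≠ 0 := by
    intro k h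
    have h1 := hyk k
    rw [h, zero_pow (pow_ne_zero _ hp0.ne')] at h1
    exact hF0 h1.symm
  have htt : ∀ γ : GG, γ W.tt = W.tt := fun γ => γ.commutes _
  have hfix : ∀ (γ : Gam), (γ : GG) F = F := by
    intro γ
    rw [hF, map_div₀, map_sub, map_sub, htt, γ.2 _ a.2, γ.2 _ b.2]
  have hrQ : ∀ (k : ℕ) (e E : Om), E ∈ Qb → e ^ (p ^ k) = E → e ∈ Qb := by
    intro k e E hE he
    rw [mem_algebraicClosure_iff]
    refine IsAlgebraic.of_pow (pow_pos hp0 k) ?_
    rw [he]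
    exact mem_algebraicClosure_iff.1 hE
  have hζQ : ∀ k, ζ k ∈ Qb := fun k => hrQ k _ 1 (one_mem _) (hζp k).pow_eq_one
  have hm : ∀ (γ : Gam) (k : ℕ), ∃ m : ℕ, (γ : GG) (y k) = ζ k ^ m * y k := by
    intro γ k
    have h1 : ((γ : GG) (y k) / y k) ^ (p ^ k) = 1 := by
      rw [div_pow, ← map_pow, hyk, hfix, div_self hF0]
    have : NeZero (p ^ k) := ⟨pow_ne_zero _ hp0.ne'⟩
    obtain ⟨m, -, hm⟩ := (hζp k).eq_pow_of_pow_eq_one h1
    exact ⟨m, by rw [hm, div_mul_cancel₀ _ (hy1 k)]⟩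
  choose m hm using hm
  have hmod : ∀ (γ : Gam) (k : ℕ), (p : ℤ) ^ k ∣ ((m γ (k + 1) : ℕ) : ℤ) - ((m γ k : ℕ) : ℤ) := by
    intro γ k
    have h1 : ζ k ^ m γ (k + 1) = ζ k ^ m γ k := by
      have h2 : (γ : GG) (y k) = ζ k ^ m γ (k + 1) * y k := by
        rw [← hy k, map_pow, hm γ (k + 1), mul_pow, ← pow_mul, mul_comm _ p, pow_mul, hζ]
      rw [hm γ k] at h2
      exact (mul_right_cancel₀ (hy1 k) h2).symm
    have h2 := modEq_of_congr (pow_ne_zero _ hp0.ne') (hζp k) h1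
    have h3 := Nat.modEq_iff_dvd.1 h2.symm
    rw [Nat.cast_pow] at h3
    exact h3
  let lam : Gam → ℤ_[p] := fun γ => PadicInt.ofIntSeq _
    (PadicInt.isCauSeq_padicNorm_of_pow_dvd_sub (fun k => ((m γ k : ℕ) : ℤ)) p (hmod γ))
  have hlam : ∀ γ k, PadicInt.toZModPow k (lam γ) = (m γ k : ZMod (p ^ k)) := by
    intro γ k
    have h1 := PadicInt.toZModPow_ofIntSeq_of_pow_dvd_sub (fun k => ((m γ k : ℕ) : ℤ)) p (hmod γ) k
    refine h1.trans ?_
    rw [Int.cast_natCast]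
  have hact : ∀ (γ : Gam) (k : ℕ),
      (γ : GG) (y k) = ζ k ^ (PadicInt.toZModPow k (lam γ)).val * y k := by
    intro γ k
    rw [hlam, hm γ k, ZMod.val_natCast]
    congr 1
    conv_lhs => rw [← Nat.mod_add_div (m γ k) (p ^ k)]
    rw [pow_add, pow_mul, (hζp k).pow_eq_one, one_pow, mul_one]
  refine ⟨lam, y, ζ, ?_, ?_, ?_, hyk, hζp, hact⟩
  · intro γ δ
    rw [← PadicInt.ext_of_toZModPow]
    intro k
    rw [map_add, hlam, hlam, hlam, ← Nat.cast_add]
    refine eq_of_congr (hζp k) ?_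
    have h1 : ((γ * δ : Gam) : GG) (y k) = ζ k ^ (m γ k + m δ k) * y k := by
      change (γ : GG) ((δ : GG) (y k)) = _
      rw [hm δ k, map_mul, map_pow, γ.2 _ (hζQ k), hm γ k, pow_add]
      ring
    rw [hm (γ * δ) k] at h1
    exact mul_right_cancel₀ (hy1 k) h1
  · rw [Metric.continuous_iff']
    intro γ0 ε hε
    obtain ⟨k, hk⟩ : ∃ k : ℕ, (p : ℝ) ^ (-(k : ℤ)) < ε := PadicInt.exists_pow_neg_lt p hε
    have hopen : IsOpen {γ : Gam | (γ : GG) (y k) = (γ0 : GG) (y k)} :=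
      (isOpen_eval (y k) {(γ0 : GG) (y k)}).preimage continuous_subtype_val
    filter_upwards [hopen.mem_nhds (show γ0 ∈ {γ : Gam | (γ : GG) (y k) = (γ0 : GG) (y k)} from rfl)]
      with γ hγ
    have hγ' : (γ : GG) (y k) = (γ0 : GG) (y k) := hγ
    refine lt_of_le_of_lt ?_ hk
    rw [dist_eq_norm, PadicInt.norm_le_pow_iff_mem_span_pow, ← PadicInt.ker_toZModPow,
      RingHom.mem_ker, map_sub, hlam, hlam, sub_eq_zero]
    refine eq_of_congr (hζp k) ?_
    rw [hm γ k, hm γ0 k] at hγ'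
    exact mul_right_cancel₀ (hy1 k) hγ'
  · intro c hca hcb v hv γ hγ
    rw [← PadicInt.ext_of_toZModPow]
    intro k
    rw [map_zero]
    have hq0 : 0 < p ^ k := pow_pos hp0 k
    suffices hγy : (γ : GG) (y k) = y k by
      have h1 := hact γ k
      rw [hγy] at h1
      have h2 : ζ k ^ (PadicInt.toZModPow k (lam γ)).val = 1 := by
        have : (1 : Om) * y k = ζ k ^ (PadicInt.toZModPow k (lam γ)).val * y k := by
          rw [one_mul]; exact h1
        exact (mul_right_cancel₀ (hy1 k) this).symm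
      have h3 := ((hζp k).pow_eq_one_iff_dvd _).1 h2
      have : NeZero (p ^ k) := ⟨hq0.ne'⟩
      have h4 := Nat.eq_zero_of_dvd_of_lt h3 (ZMod.val_lt _)
      exact (ZMod.val_eq_zero _).1 h4
    obtain ⟨E, hE, hFE⟩ : ∃ E ∈ Qb, Cg v F E := by
      cases c with
      | none =>
        refine ⟨1, one_mem _, ?_⟩
        have htt0 : W.tt ≠ 0 := by
          have := hta 0
          rwa [ZeroMemClass.coe_zero, sub_zero] at this
        have hu : ∀ x : Qb, Cg v (1 - (x : Om) * W.tt⁻¹) 1 := by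
          intro x
          refine Cg.mk' hv.1 (one_mem _) one_ne_zero ?_
          have : 1 - (x : Om) * W.tt⁻¹ - 1 = -((x : Om) * W.tt⁻¹) := by ring
          rw [this]
          exact nu_neg (nu_mul (Qb_le hv.1 x.2) hv.2)
        have h1 : F = (1 - (a : Om) * W.tt⁻¹) * (1 - (b : Om) * W.tt⁻¹)⁻¹ := by
          have h2 : (1 - (a : Om) * W.tt⁻¹) = (W.tt - a) * W.tt⁻¹ := by
            rw [sub_mul, mul_inv_cancel₀ htt0]
          have h3 : (1 - (b : Om) * W.tt⁻¹) = (W.tt - b) * W.tt⁻¹ := by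
            rw [sub_mul, mul_inv_cancel₀ htt0]
          have h4 := hta b
          rw [hF, h2, h3]
          field_simp
        rw [h1]
        have h5 := (hu a).mul (hu b).inv
        rwa [inv_one, mul_one] at h5
      | some c =>
        refine ⟨((c : Om) - a) * ((c : Om) - b)⁻¹, mul_mem (sub_mem c.2 a.2)
          (inv_mem (sub_mem c.2 b.2)), ?_⟩
        have hu : ∀ x : Qb, c ≠ x → Cg v (W.tt - (x : Om)) ((c : Om) - x) := by
          intro x hx
          refine Cg.mk' hv.1 (sub_mem c.2 x.2) ?_ ?_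
          · intro h
            exact hx (Subtype.ext (sub_eq_zero.1 h))
          · have : W.tt - (x : Om) - ((c : Om) - x) = W.tt - (c : Om) := by ring
            rw [this]
            exact hv.2
        rw [hF, div_eq_mul_inv]
        exact (hu a fun h => hca (by rw [h])).mul (hu b fun h => hcb (by rw [h])).inv
    exact fix_root Y680.W.t_VAL hv hq0 (hy1 k) (hyk k) hE hFE hγ (hfix γ)
      (fun e he => γ.2 _ (hrQ k e E hE he))

end Pool.Agent.H577.Kim.D79
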