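import Pool.Agent.H577.Kim.Stm3

/-!
# GEO: the centre of the circle through all roots is rational
-/

set_option autoImplicit false

namespace Pool.Agent.H577.Kim.D168

open Polynomial

/-- Two points which are equidistant from three points are equal. -/
lemma centre {w1 w2 r1 r2 r3 : ℂ} (h12 : r1 ≠ r2) (h13 : r1 ≠ r3) (h23 : r2 ≠ r3)
    (a12 : ‖w1 - r1‖ = ‖w1 - r2‖) (a13 : ‖w1 - r1‖ = ‖w1 - r3‖)
    (b12 : ‖w2 - r1‖ = ‖w2 - r2‖) (b13 : ‖w2 - r1‖ = ‖w2 - r3‖) : w1 = w2 := by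
  by_contra hne
  have h := EuclideanGeometry.eq_of_dist_eq_of_dist_eq_of_finrank_eq_two
    (V := ℂ) (P := ℂ) Complex.finrank_real_complex (c₁ := w1) (c₂ := w2) (p₁ := r1) (p₂ := r2)
    (p := r3) (r₁ := ‖w1 - r1‖) (r₂ := ‖w2 - r1‖) hne h12
    (by rw [dist_comm, Complex.dist_eq]) (by rw [dist_comm, Complex.dist_eq, a12])
    (by rw [dist_comm, Complex.dist_eq, a13]) (by rw [dist_comm, Complex.dist_eq])
    (by rw [dist_comm, Complex.dist_eq, b12]) (by rw [dist_comm, Complex.dist_eq, b13])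
  rcases h with h | h
  · exact h13 h.symm
  · exact h23 h.symm

/-- A root of unity is in the image of an algebraically closed field. -/
lemma root_mem {K L : Type} [Field K] [IsAlgClosed K] [Field L] (ι : K →+* L) {m : ℕ} (hm : 0 < m)
    {ζ : L} (h : ζ ^ m = 1) : ∃ r : K, ι r = ζ := by
  have hP : (X ^ m - 1 : K[X]) ≠ 0 := X_pow_sub_C_ne_zero hm 1
  have hsp := (IsAlgClosed.splits (X ^ m - 1 : K[X])).eq_prod_roots
  have h1 := congrArg (fun P : K[X] => (P.map ι).eval ζ) hsp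
  simp only [Polynomial.map_sub, Polynomial.map_pow, map_X, Polynomial.map_one, eval_sub, eval_pow,
    eval_X, eval_one, h, sub_self, Polynomial.map_mul, map_C, eval_mul, eval_C,
    Polynomial.map_multiset_prod, Multiset.map_map, Polynomial.eval_multiset_prod] at h1
  rcases mul_eq_zero.1 h1.symm with h2 | h2
  · exact absurd (by simpa using h2) hP
  · rw [Multiset.prod_eq_zero_iff, Multiset.mem_map] at h2
    obtain ⟨r, -, hr⟩ := h2
    refine ⟨r, ?_⟩
    simp at hr
    exact (sub_eq_zero.1 hr).symm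

/-- The statement for an algebraic closure of the rational numbers. -/
lemma core {K L : Type} [Field K] [Algebra ℚ K] [CharZero K] [IsAlgClosed K]
    [Algebra.IsAlgebraic ℚ K] [Field L] (ι : K →+* L) (f : ℚ[X]) (hsep : f.Separable)
    (hdeg : 3 ≤ f.natDegree) (z0 : L) (h1 : ∀ a : K, aeval a f = 0 → z0 ≠ ι a)
    (h2 : ∀ a b : K, aeval a f = 0 → aeval b f = 0 →
      ∃ m : ℕ, 0 < m ∧ ((z0 - ι a) / (z0 - ι b)) ^ m = 1) :
    ∃ q : ℚ, z0 = ι (algebraMap ℚ K q) := by
  classical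
  have hf0 : f ≠ 0 := hsep.ne_zero
  set R := (f.map (algebraMap ℚ K)).roots.toFinset with hR
  have hmem : ∀ a : K, a ∈ R ↔ aeval a f = 0 := by
    intro a
    rw [hR, Multiset.mem_toFinset, mem_roots (Polynomial.map_ne_zero hf0), IsRoot.def,
      eval_map_algebraMap]
  have hcard : R.card = f.natDegree := by
    rw [hR, Multiset.toFinset_card_of_nodup (nodup_roots hsep.map),
      ← (IsAlgClosed.splits _).natDegree_eq_card_roots, natDegree_map]
  obtain ⟨a, ha, b, hb, c, hc, hab, hac, hbc⟩ :=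
    Finset.two_lt_card.1 (by rw [hcard]; omega : 2 < R.card)
  rw [hmem] at ha hb hc
  obtain ⟨m, hm, hζ⟩ := h2 a b ha hb
  obtain ⟨ζ, hζ'⟩ := root_mem ι hm hζ
  have hb0 : z0 - ι b ≠ 0 := sub_ne_zero.2 (h1 b hb)
  have hz : z0 - ι a = ι ζ * (z0 - ι b) := by
    rw [hζ']
    field_simp
  have hζ1 : ζ ≠ 1 := by
    rintro rfl
    rw [map_one, one_mul] at hz
    exact hab (ι.injective (by linear_combination -hz))
  have hζ2 : ι (1 - ζ) ≠ 0 := by
    rw [Ne, map_eq_zero]
    exact sub_ne_zero.2 hζ1.symm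
  have hz0 : z0 = ι ((a - ζ * b) / (1 - ζ)) := by
    rw [map_div₀, eq_div_iff hζ2, map_sub, map_sub, map_mul, map_one]
    linear_combination hz
  set z1 := (a - ζ * b) / (1 - ζ) with hz1
  -- equidistance
  have key : ∀ τ : K →+* ℂ, ∀ a b : K, aeval a f = 0 → aeval b f = 0 →
      ‖τ z1 - τ a‖ = ‖τ z1 - τ b‖ := by
    intro τ a b ha hb
    obtain ⟨m, hm, h⟩ := h2 a b ha hb
    have hb1 : z1 - b ≠ 0 := fun h => h1 b hb (by rw [hz0, sub_eq_zero.1 h])
    have e : ((z1 - a) / (z1 - b)) ^ m = 1 := ι.injective (by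
      rw [map_pow, map_div₀, map_sub, map_sub, ← hz0, h, map_one])
    have e2 : (τ ((z1 - a) / (z1 - b))) ^ m = 1 := by rw [← map_pow, e, map_one]
    have e3 := Complex.norm_eq_one_of_pow_eq_one e2 hm.ne'
    have hτ : τ (z1 - b) ≠ 0 := by rwa [Ne, map_eq_zero]
    rw [map_div₀, norm_div, div_eq_one_iff_eq (norm_ne_zero_iff.2 hτ), map_sub, map_sub] at e3
    exact e3
  -- invariance
  let τ : K →ₐ[ℚ] ℂ := IsAlgClosed.lift
  have hfix : ∀ σ : K ≃ₐ[ℚ] K, σ z1 = z1 := by
    intro σ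
    apply τ.toRingHom.injective
    have hroot : ∀ x : K, aeval x f = 0 → aeval (σ.symm x) f = 0 := by
      intro x hx
      have h := Polynomial.aeval_algHom_apply σ.symm.toAlgHom x f
      rw [hx, map_zero] at h
      exact h
    have hk : ∀ x y : K, aeval x f = 0 → aeval y f = 0 →
        ‖τ (σ z1) - τ x‖ = ‖τ (σ z1) - τ y‖ := by
      intro x y hx hy
      have h := key (τ.toRingHom.comp σ.toAlgHom.toRingHom) (σ.symm x) (σ.symm y) (hroot x hx)
        (hroot y hy)
      have ex : σ (σ.symm x) = x := σ.apply_symm_apply x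
      have ey : σ (σ.symm y) = y := σ.apply_symm_apply y
      change ‖τ (σ z1) - τ (σ (σ.symm x))‖ = ‖τ (σ z1) - τ (σ (σ.symm y))‖ at h
      rwa [ex, ey] at h
    exact centre (fun h => hab (τ.toRingHom.injective h)) (fun h => hac (τ.toRingHom.injective h))
      (fun h => hbc (τ.toRingHom.injective h)) (hk a b ha hb) (hk a c ha hc)
      (key τ.toRingHom a b ha hb) (key τ.toRingHom a c ha hc)
  have hcl : IsAlgClosure ℚ K := ⟨inferInstance, inferInstance⟩
  have hgal : IsGalois ℚ K := IsAlgClosure.isGalois ℚ K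
  obtain ⟨q, hq⟩ := (InfiniteGalois.mem_range_algebraMap_iff_fixed z1).2 hfix
  exact ⟨q, by rw [hz0, hq]⟩

open Y680 Y680.V Pool.Agent.H577.Kim
open Y680.W (Qb)

lemma halg : Algebra.IsAlgebraic ℚ Qb := by
  have h := (algebraicClosure.isAlgClosure ℚ Y680.W.Om).isAlgebraic
  have e : (IntermediateField.algebra' Qb : Algebra ℚ Qb) = DivisionRing.toRatAlgebra :=
    Subsingleton.elim _ _
  rw [e] at h
  exact h

/-- GEO -/
theorem geo : S_GEO := by
  intro p _ ι f hsep hdeg _ z0 h1 h2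
  have hac : IsAlgClosed Qb := (algebraicClosure.isAlgClosure ℚ Y680.W.Om).isAlgClosed
  have halg := halg
  have hdeg' : 3 ≤ (f0 f).natDegree := by
    unfold f0
    rw [natDegree_map_eq_of_injective (RingHom.injective_int _)]
    exact hdeg
  obtain ⟨q, hq⟩ := core ι (f0 f) hsep hdeg' (algebraMap ℚ_[p] (AlgebraicClosure ℚ_[p]) z0)
    (fun a ha => h1 a ha) (fun a b ha hb => h2 a b ha hb)
  refine ⟨q, (algebraMap ℚ_[p] (AlgebraicClosure ℚ_[p])).injective ?_⟩
  rw [hq, eq_ratCast, map_ratCast, map_ratCast]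

end Pool.Agent.H577.Kim.D168
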