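import Pool.Agent.H577.Kim.Stm

/-!
INT: for an `l`-adic integral point the differences are units.
-/

open scoped Pointwise TensorProduct Topology Polynomial NNReal

noncomputable section

namespace Pool.Agent.H577.Kim.D687

open Y680 Y680.V Polynomial Pool.Agent.H577.Kim

/-- the form is the product over the roots -/
theorem form_prod {K : Type} [Field K] [IsAlgClosed K] (f : ℤ[X]) (hf : f.Monic) (u v : K) :
    form f u v = (((f.map (Int.castRingHom K)).roots).map fun a => u - a * v).prod := by
  set F := f.map (Int.castRingHom K) with hF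
  have hFm : F.Monic := hf.map _
  have hFd : F.natDegree = f.natDegree := hf.natDegree_map _
  have hs : F.Splits := IsAlgClosed.splits F
  have hc : Multiset.card F.roots = f.natDegree := by
    rw [← hFd]
    exact splits_iff_card_roots.1 hs
  have hco : ∀ i, ((f.coeff i : ℤ) : K) = F.coeff i := fun i => by
    rw [hF, coeff_map]
    rfl
  have hp : (F.roots.map fun a => X - C a).prod = F := by
    have := hs.eq_prod_roots_of_monic hFm
    exact this.symm
  unfold form
  by_cases hv : v = 0
  · subst hv
    have h1 : (F.roots.map fun a => u - a * 0).prod = u ^ f.natDegree := by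
      simp only [mul_zero, sub_zero, Multiset.map_const', Multiset.prod_replicate, hc]
    rw [h1, Finset.sum_range_succ, Finset.sum_eq_zero]
    · rw [hf.coeff_natDegree]
      simp
    · intro i hi
      rw [Finset.mem_range] at hi
      rw [zero_pow (by omega), mul_zero]
  · have h1 : ∀ a : K, u - a * v = v * (u / v - a) := by
      intro a
      field_simp
    have h2 : (F.roots.map fun a => u / v - a).prod = F.eval (u / v) := by
      conv_rhs => rw [← hp]
      rw [eval_multiset_prod, Multiset.map_map]
      congr 1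
      refine Multiset.map_congr rfl fun a _ => ?_
      simp
    have h3 : (F.roots.map fun a => u - a * v).prod = v ^ f.natDegree * F.eval (u / v) := by
      rw [Multiset.map_congr rfl fun a _ => h1 a, Multiset.prod_map_mul, h2]
      simp only [Multiset.map_const', Multiset.prod_replicate, hc]
    rw [h3, eval_eq_sum_range, hFd, Finset.mul_sum]
    refine Finset.sum_congr rfl fun i hi => ?_
    rw [Finset.mem_range] at hi
    rw [hco, div_pow]
    have h4 : v ^ f.natDegree = v ^ (f.natDegree - i) * v ^ i := by
      rw [← pow_add]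
      congr 1
      omega
    rw [h4]
    field_simp

theorem form_map {R S : Type} [CommRing R] [CommRing S] (φ : R →+* S) (f : ℤ[X]) (x y : R) :
    form f (φ x) (φ y) = φ (form f x y) := by
  unfold form
  rw [map_sum]
  refine Finset.sum_congr rfl fun i _ => ?_
  rw [map_mul, map_mul, map_pow, map_pow, map_intCast]

theorem prod_le_one {M : Type} [CommMonoidWithZero M] {Γ : Type}
    [LinearOrderedCommGroupWithZero Γ] (w : M →*₀ Γ) (s : Multiset M) (h : ∀ b ∈ s, w b ≤ 1) :
    w s.prod ≤ 1 := by
  induction s using Multiset.induction_on with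
  | empty => simp
  | cons a s ih =>
    rw [Multiset.prod_cons, map_mul]
    exact mul_le_one' (h a (Multiset.mem_cons_self a s))
      (ih fun b hb => h b (Multiset.mem_cons_of_mem hb))

/-- a valuation takes values at most one on the integral elements -/
theorem val_le_one {K : Type} [Field K] {Γ : Type} [LinearOrderedCommGroupWithZero Γ]
    (w : Valuation K Γ) (f : ℤ[X]) (hf : f.Monic) (a : K)
    (ha : Polynomial.eval₂ (Int.castRingHom K) a f = 0) : w a ≤ 1 := by
  have h1 : IsIntegral ℤ a := ⟨f, hf, ha⟩
  have h2 : IsIntegral w.integer a := h1.tower_top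
  exact (Valuation.integer.integers w).mem_of_integral h2

theorem int : S_INT := by
  intro l _ f hf x y hu a ha
  set V : Valuation (PadicAlgCl l) ℝ≥0 := Valued.v with hV
  have hval : ∀ z : ℤ_[l], V (algebraMap ℚ_[l] (AlgebraicClosure ℚ_[l]) (z : ℚ_[l])) = ‖z‖₊ := by
    intro z
    rw [hV, PadicAlgCl.valuation_def]
    ext
    rw [coe_nnnorm, coe_nnnorm]
    exact PadicAlgCl.norm_extends l (z : ℚ_[l])
  have hle : ∀ z : ℤ_[l], V (algebraMap ℚ_[l] (AlgebraicClosure ℚ_[l]) (z : ℚ_[l])) ≤ 1 := by
    intro z
    rw [hval]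
    exact_mod_cast z.norm_le_one
  set u := algebraMap ℚ_[l] (AlgebraicClosure ℚ_[l]) (x : ℚ_[l]) with hu'
  set v := algebraMap ℚ_[l] (AlgebraicClosure ℚ_[l]) (y : ℚ_[l]) with hv'
  set F := f.map (Int.castRingHom (AlgebraicClosure ℚ_[l])) with hF
  have hform : form f u v =
      algebraMap ℚ_[l] (AlgebraicClosure ℚ_[l]) ((form f x y : ℤ_[l]) : ℚ_[l]) :=
    form_map ((algebraMap ℚ_[l] (AlgebraicClosure ℚ_[l])).comp PadicInt.Coe.ringHom) f x y
  have h1 : V (form f u v) = 1 := by
    rw [hform, hval]
    ext
    rw [coe_nnnorm]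
    exact_mod_cast PadicInt.isUnit_iff.1 hu
  have hfac : ∀ b ∈ F.roots, V (u - b * v) ≤ 1 := by
    intro b hb
    have hb' : Polynomial.eval₂ (Int.castRingHom (AlgebraicClosure ℚ_[l])) b f = 0 := by
      have h2 := (mem_roots'.1 hb).2
      rw [IsRoot, hF, eval_map] at h2
      exact h2
    have h3 : V b ≤ 1 := val_le_one V f hf b hb'
    refine (V.map_sub _ _).trans (max_le (hle x) ?_)
    rw [map_mul]
    exact mul_le_one' h3 (hle y)
  have hmem : a ∈ F.roots := by
    rw [mem_roots (hf.map _).ne_zero, IsRoot, eval_map]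
    exact ha
  obtain ⟨s, hs⟩ := Multiset.exists_cons_of_mem hmem
  have h2 := form_prod f hf u v
  rw [← hF, hs, Multiset.map_cons, Multiset.prod_cons] at h2
  rw [h2, map_mul] at h1
  have h3 : V ((s.map fun a => u - a * v).prod) ≤ 1 := by
    refine prod_le_one V.toMonoidWithZeroHom _ ?_
    intro c hc
    rw [Multiset.mem_map] at hc
    obtain ⟨b, hb, rfl⟩ := hc
    exact hfac b (by rw [hs]; exact Multiset.mem_cons_of_mem hb)
  refine le_antisymm (hfac a hmem) ?_
  calc (1 : ℝ≥0) = V (u - a * v) * V ((s.map fun a => u - a * v).prod) := h1.symm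
    _ ≤ V (u - a * v) * 1 := mul_le_mul_right h3 _
    _ = V (u - a * v) := mul_one _

end Pool.Agent.H577.Kim.D687
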