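import Pool.Agent.H577.Kim.Stm3
import Pool.Agent.H577.Kim.Done.KCHAR

/-!
KCHAR2: the `p`-adic Kummer character of the function `F2` with divisor `a1 + a2 - b1 - b2` on the
geometric Galois group (adapted from helper79's `kchar`).
-/

open scoped Pointwise TensorProduct Topology Polynomial NNReal

noncomputable section

namespace Pool.Agent.H577.Kim.D178

open Y680 Y680.V Polynomial
open Y680.W (GG Gam Qb map_Qb)
open Y680.W.K3
open Pool.Agent.H577.Kim
open Pool.Agent.H577.Kim.D79 (exists_roots pow_root exists_zeta modEq_of_congr eq_of_congr)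

theorem kchar2 : S_KCHAR2 := by
  intro p hp a1 a2 b1 b2
  have hp0 : 0 < p := hp.out.pos
  set F : Om := F2 a1 a2 b1 b2 with hF
  have hta : ∀ c : Qb, W.tt - (c : Om) ≠ 0 := by
    intro c h
    apply Y680.W.tt_notMem
    rw [sub_eq_zero.1 h]
    exact c.2
  have hF0 : F ≠ 0 := div_ne_zero (mul_ne_zero (hta a1) (hta a2)) (mul_ne_zero (hta b1) (hta b2))
  obtain ⟨y, hy0, hy⟩ := exists_roots p hp0 F
  obtain ⟨ζ, hζ, hζp⟩ := exists_zeta p
  have hyk : ∀ k, y k ^ (p ^ k) = F := fun k => (pow_root hy k).trans hy0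
  have hy1 : ∀ k, y k ≠ 0 := by
    intro k h
    have h1 := hyk k
    rw [h, zero_pow (pow_ne_zero _ hp0.ne')] at h1
    exact hF0 h1.symm
  have htt : ∀ γ : GG, γ W.tt = W.tt := fun γ => γ.commutes _
  have hfix : ∀ (γ : Gam), (γ : GG) F = F := by
    intro γ
    rw [hF, F2, map_div₀, map_mul, map_mul, map_sub, map_sub, map_sub, map_sub, htt, γ.2 _ a1.2,
      γ.2 _ a2.2, γ.2 _ b1.2, γ.2 _ b2.2]
  have hrQ : ∀ (k : ℕ) (e E : Om), E ∈ Qb → e ^ (p ^ k) = E → e ∈ Qb := by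
    intro k e E hE he
    rw [mem_algebraicClosure_iff]
    refine IsAlgebraic.of_pow (pow_pos hp0 k) ?_
    rw [he]
    exact mem_algebraicClosure_iff.1 hE
  have hζQ : ∀ k, ζ k ∈ Qb := fun k => hrQ k _ 1 (one_mem _) (hζp k).pow_eq_one
  have hm : ∀ (γ : Gam) (k : ℕ), ∃ m : ℕ, (γ : GG) (y k) = ζ k ^ m * y k := by
    intro γ k
    have h1 : ((γ : GG) (y k) / y k) ^ (p ^ k) = 1 := by
      rw [div_pow, ← map_pow, hyk, hfix, div_self hF0]
    have : NeZero (p ^ k) := ⟨pow_ne_zero _ hp0.ne'⟩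
    obtain ⟨m, -, hm⟩ := (hζp k).eq_pow_of_pow_eq_one h1
    exact ⟨m, by rw [hm, div_mul_cancel₀ _ (hy1 k)]⟩
  choose m hm using hm
  have hmod : ∀ (γ : Gam) (k : ℕ), (p : ℤ) ^ k ∣ ((m γ (k + 1) : ℕ) : ℤ) - ((m γ k : ℕ) : ℤ) := by
    intro γ k
    have h1 : ζ k ^ m γ (k + 1) = ζ k ^ m γ k := by
      have h2 : (γ : GG) (y k) = ζ k ^ m γ (k + 1) * y k := by
        rw [← hy k, map_pow, hm γ (k + 1), mul_pow, ← pow_mul, mul_comm _ p, pow_mul, hζ]
      rw [hm γ k] at h2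
      exact (mul_right_cancel₀ (hy1 k) h2).symm
    have h2 := modEq_of_congr (pow_ne_zero _ hp0.ne') (hζp k) h1
    have h3 := Nat.modEq_iff_dvd.1 h2.symm
    rw [Nat.cast_pow] at h3
    exact h3
  let lam : Gam → ℤ_[p] := fun γ => PadicInt.ofIntSeq _
    (PadicInt.isCauSeq_padicNorm_of_pow_dvd_sub (fun k => ((m γ k : ℕ) : ℤ)) p (hmod γ))
  have hlam : ∀ γ k, PadicInt.toZModPow k (lam γ) = (m γ k : ZMod (p ^ k)) := by
    intro γ k
    have h1 := PadicInt.toZModPow_ofIntSeq_of_pow_dvd_sub (fun k => ((m γ k : ℕ) : ℤ)) p (hmod γ) k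
    refine h1.trans ?_
    rw [Int.cast_natCast]
  have hact : ∀ (γ : Gam) (k : ℕ),
      (γ : GG) (y k) = ζ k ^ (PadicInt.toZModPow k (lam γ)).val * y k := by
    intro γ k
    rw [hlam, hm γ k, ZMod.val_natCast]
    congr 1
    conv_lhs => rw [← Nat.mod_add_div (m γ k) (p ^ k)]
    rw [pow_add, pow_mul, (hζp k).pow_eq_one, one_pow, mul_one]
  refine ⟨lam, y, ζ, ?_, ?_, ?_, hyk, hζp, hact⟩
  · intro γ δ
    rw [← PadicInt.ext_of_toZModPow]
    intro k
    rw [map_add, hlam, hlam, hlam, ← Nat.cast_add]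
    refine eq_of_congr (hζp k) ?_
    have h1 : ((γ * δ : Gam) : GG) (y k) = ζ k ^ (m γ k + m δ k) * y k := by
      change (γ : GG) ((δ : GG) (y k)) = _
      rw [hm δ k, map_mul, map_pow, γ.2 _ (hζQ k), hm γ k, pow_add]
      ring
    rw [hm (γ * δ) k] at h1
    exact mul_right_cancel₀ (hy1 k) h1
  · rw [Metric.continuous_iff']
    intro γ0 ε hε
    obtain ⟨k, hk⟩ : ∃ k : ℕ, (p : ℝ) ^ (-(k : ℤ)) < ε := PadicInt.exists_pow_neg_lt p hε
    have hopen : IsOpen {γ : Gam | (γ : GG) (y k) = (γ0 : GG) (y k)} :=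
      (isOpen_eval (y k) {(γ0 : GG) (y k)}).preimage continuous_subtype_val
    filter_upwards [hopen.mem_nhds (show γ0 ∈ {γ : Gam | (γ : GG) (y k) = (γ0 : GG) (y k)} from rfl)]
      with γ hγ
    have hγ' : (γ : GG) (y k) = (γ0 : GG) (y k) := hγ
    refine lt_of_le_of_lt ?_ hk
    rw [dist_eq_norm, PadicInt.norm_le_pow_iff_mem_span_pow, ← PadicInt.ker_toZModPow,
      RingHom.mem_ker, map_sub, hlam, hlam, sub_eq_zero]
    refine eq_of_congr (hζp k) ?_
    rw [hm γ k, hm γ0 k] at hγ'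
    exact mul_right_cancel₀ (hy1 k) hγ'
  · intro c hca1 hca2 hcb1 hcb2 v hv γ hγ
    rw [← PadicInt.ext_of_toZModPow]
    intro k
    rw [map_zero]
    have hq0 : 0 < p ^ k := pow_pos hp0 k
    suffices hγy : (γ : GG) (y k) = y k by
      have h1 := hact γ k
      rw [hγy] at h1
      have h2 : ζ k ^ (PadicInt.toZModPow k (lam γ)).val = 1 := by
        have : (1 : Om) * y k = ζ k ^ (PadicInt.toZModPow k (lam γ)).val * y k := by
          rw [one_mul]; exact h1
        exact (mul_right_cancel₀ (hy1 k) this).symm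
      have h3 := ((hζp k).pow_eq_one_iff_dvd _).1 h2
      have : NeZero (p ^ k) := ⟨hq0.ne'⟩
      have h4 := Nat.eq_zero_of_dvd_of_lt h3 (ZMod.val_lt _)
      exact (ZMod.val_eq_zero _).1 h4
    obtain ⟨E, hE, hFE⟩ : ∃ E ∈ Qb, Cg v F E := by
      cases c with
      | none =>
        refine ⟨1, one_mem _, ?_⟩
        have htt0 : W.tt ≠ 0 := by
          have := hta 0
          rwa [ZeroMemClass.coe_zero, sub_zero] at this
        have hu : ∀ x : Qb, Cg v (1 - (x : Om) * W.tt⁻¹) 1 := by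
          intro x
          refine Cg.mk' hv.1 (one_mem _) one_ne_zero ?_
          have : 1 - (x : Om) * W.tt⁻¹ - 1 = -((x : Om) * W.tt⁻¹) := by ring
          rw [this]
          exact nu_neg (nu_mul (Qb_le hv.1 x.2) hv.2)
        have h2 : ∀ x : Qb, (1 - (x : Om) * W.tt⁻¹) = (W.tt - x) * W.tt⁻¹ := by
          intro x
          rw [sub_mul, mul_inv_cancel₀ htt0]
        have h1 : F = ((1 - (a1 : Om) * W.tt⁻¹) * (1 - (a2 : Om) * W.tt⁻¹)) *
            ((1 - (b1 : Om) * W.tt⁻¹) * (1 - (b2 : Om) * W.tt⁻¹))⁻¹ := by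
          have h4 := hta b1
          have h5 := hta b2
          rw [hF, F2, h2, h2, h2, h2]
          field_simp
        rw [h1]
        have h5 := ((hu a1).mul (hu a2)).mul ((hu b1).mul (hu b2)).inv
        rwa [mul_one, inv_one, mul_one] at h5
      | some c =>
        refine ⟨(((c : Om) - a1) * ((c : Om) - a2)) * (((c : Om) - b1) * ((c : Om) - b2))⁻¹,
          mul_mem (mul_mem (sub_mem c.2 a1.2) (sub_mem c.2 a2.2))
          (inv_mem (mul_mem (sub_mem c.2 b1.2) (sub_mem c.2 b2.2))), ?_⟩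
        have hu : ∀ x : Qb, c ≠ x → Cg v (W.tt - (x : Om)) ((c : Om) - x) := by
          intro x hx
          refine Cg.mk' hv.1 (sub_mem c.2 x.2) ?_ ?_
          · intro h
            exact hx (Subtype.ext (sub_eq_zero.1 h))
          · have : W.tt - (x : Om) - ((c : Om) - x) = W.tt - (c : Om) := by ring
            rw [this]
            exact hv.2
        rw [hF, F2, div_eq_mul_inv]
        exact ((hu a1 fun h => hca1 (by rw [h])).mul (hu a2 fun h => hca2 (by rw [h]))).mul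
          ((hu b1 fun h => hcb1 (by rw [h])).mul (hu b2 fun h => hcb2 (by rw [h]))).inv
    exact fix_root Y680.W.t_VAL hv hq0 (hy1 k) (hyk k) hE hFE hγ (hfix γ)
      (fun e he => γ.2 _ (hrQ k e E hE he))

end Pool.Agent.H577.Kim.D178
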