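import Pool.Agent.H577.Kim.Stm3

/-! Kummer theory for a cocycle on the stabiliser of a place above infinity (helper550). -/

open scoped Pointwise TensorProduct Topology Polynomial NNReal

noncomputable section

namespace Pool.Agent.H577.Kim.D550

open Pool.Agent.H577.Kim
open Y680 Y680.V Polynomial
open Y680.W (GG Gam Qb map_Qb)

/-- twisted Kummer theory -/
theorem twisted (F K : Type) [Field F] [Field K] [Algebra F K] [IsGalois F K] (n : ℕ) (ζ : K)
    (hn : 0 < n) (hζ : IsPrimitiveRoot ζ n) (h c : (K ≃ₐ[F] K) → ZMod n)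
    (hc : ∀ σ : K ≃ₐ[F] K, σ ζ = ζ ^ (c σ).val)
    (hadd : ∀ σ τ, h (σ * τ) = h σ + c σ * h τ) (T : Finset K)
    (hT : ∀ σ : K ≃ₐ[F] K, (∀ x ∈ T, σ x = x) → h σ = 0) :
    ∃ α : K, α ≠ 0 ∧ (∀ σ : K ≃ₐ[F] K, σ α = ζ ^ (h σ).val * α) := by
  classical
  have hne : NeZero n := ⟨hn.ne'⟩
  let E0 : IntermediateField F K := IntermediateField.adjoin F ((insert ζ T : Finset K) : Set K)
  have hfin0 : FiniteDimensional F E0 := by
    apply IntermediateField.finiteDimensional_adjoin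
    intro x _
    exact (Algebra.IsAlgebraic.isAlgebraic x).isIntegral
  let E : IntermediateField F K := IntermediateField.normalClosure F E0 K
  have hfin : FiniteDimensional F E := normalClosure.is_finiteDimensional F E0 K
  have hnor : Normal F E := normalClosure.normal F E0 K
  have hE0 : E0 ≤ E := E0.le_normalClosure
  have hgal : IsGalois F E := ⟨⟩
  have hTE : ∀ x ∈ T, x ∈ E := fun x hx =>
    hE0 (IntermediateField.subset_adjoin _ _ (by simp [hx]))
  have hζEm : ζ ∈ E := hE0 (IntermediateField.subset_adjoin _ _ (by simp))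
  let ζE : E := ⟨ζ, hζEm⟩
  let r : (K ≃ₐ[F] K) → (E ≃ₐ[F] E) := fun σ => σ.restrictNormal E
  let l : (E ≃ₐ[F] E) → (K ≃ₐ[F] K) := fun τ => τ.liftNormal K
  have hr : ∀ (σ : K ≃ₐ[F] K) (x : E), ((r σ x : E) : K) = σ x := fun σ x =>
    AlgEquiv.restrictNormal_commutes σ E x
  have hl : ∀ (τ : E ≃ₐ[F] E) (x : E), l τ (x : K) = ((τ x : E) : K) := fun τ x =>
    AlgEquiv.liftNormal_commutes τ K x
  have hker : ∀ σ σ' : K ≃ₐ[F] K, (∀ x : E, σ (x : K) = σ' (x : K)) → h σ = h σ' := by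
    intro σ σ' hx
    have h3 : h (σ⁻¹ * σ') = 0 := by
      apply hT
      intro x hxT
      rw [AlgEquiv.mul_apply, ← hx ⟨x, hTE x hxT⟩, ← AlgEquiv.mul_apply, inv_mul_cancel]
      rfl
    have h4 : h (σ * (σ⁻¹ * σ')) = h σ + c σ * h (σ⁻¹ * σ') := hadd _ _
    rw [← mul_assoc, mul_inv_cancel, one_mul, h3, mul_zero, add_zero] at h4
    exact h4.symm
  have hlmul : ∀ τ τ' : E ≃ₐ[F] E, h (l (τ * τ')) = h (l τ) + c (l τ) * h (l τ') := by
    intro τ τ'
    rw [← hadd]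
    apply hker
    intro x
    rw [hl, AlgEquiv.mul_apply, AlgEquiv.mul_apply, hl, hl]
  have hζ0 : ζ ≠ 0 := hζ.ne_zero hn.ne'
  have hζn : ζ ^ n = 1 := hζ.pow_eq_one
  have hpow : ∀ a b : ZMod n, ζ ^ (a + b).val = ζ ^ a.val * ζ ^ b.val := by
    intro a b
    rw [ZMod.val_add, ← pow_add]
    exact (pow_eq_pow_mod _ hζn).symm
  have hpow2 : ∀ a b : ZMod n, ζ ^ (a * b).val = (ζ ^ a.val) ^ b.val := by
    intro a b
    rw [ZMod.val_mul, ← pow_mul]
    exact (pow_eq_pow_mod _ hζn).symm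
  have hζE : ζE ≠ 0 := by
    intro h0
    exact hζ0 (congrArg (fun y : E => (y : K)) h0)
  let f : (E ≃ₐ[F] E) → Eˣ := fun τ =>
    Units.mk0 (ζE ^ (h (l τ)).val) (pow_ne_zero _ hζE)
  have hf : groupCohomology.IsMulCocycle₁ f := by
    intro τ τ'
    apply Units.ext
    show ζE ^ (h (l (τ * τ'))).val = τ (ζE ^ (h (l τ')).val) * ζE ^ (h (l τ)).val
    apply Subtype.ext
    show ζ ^ (h (l (τ * τ'))).val = ((τ (ζE ^ (h (l τ')).val) : E) : K) * ζ ^ (h (l τ)).val
    rw [← hl]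
    have e1 : ((ζE ^ (h (l τ')).val : E) : K) = ζ ^ (h (l τ')).val := rfl
    rw [e1, map_pow, hc, hlmul, hpow, hpow2, mul_comm]
  obtain ⟨x, hx⟩ := groupCohomology.isMulCoboundary₁_of_isMulCocycle₁_of_aut_to_units f hf
  have hx2 : ∀ τ : E ≃ₐ[F] E, τ (x : E) = ζE ^ (h (l τ)).val * (x : E) := by
    intro τ
    have h3 := hx τ
    rw [div_eq_iff_eq_mul] at h3
    exact congrArg Units.val h3
  refine ⟨((x : E) : K), ?_, ?_⟩
  · intro h0
    have : (x : E) = 0 := Subtype.ext h0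
    exact x.ne_zero this
  · intro σ
    have h4 := hx2 (r σ)
    have h5 : h (l (r σ)) = h σ := by
      apply hker
      intro y
      rw [hl, hr]
    rw [h5] at h4
    have h7 : ((r σ (x : E) : E) : K) = ((ζE ^ (h σ).val * (x : E) : E) : K) :=
      congrArg (fun y : E => (y : K)) h4
    rw [hr] at h7
    rw [h7]
    rfl

theorem isAlgebraic_Qb : Algebra.IsAlgebraic ℚ Qb := algebraicClosure.isAlgebraic ℚ Om

theorem isAlgClosed_Qb : IsAlgClosed Qb :=
  (algebraicClosure.isAlgClosure (F := ℚ) (E := Om)).isAlgClosed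

/-- a continuous function modulo `p ^ k` which vanishes on a closed condition is controlled by a
finite set -/
theorem finite_level (p : ℕ) [Fact p.Prime] (a : Qb) (v0 : ValuationSubring Om) (κ : GG → ℤ_[p])
    (hκ : Continuous κ) (k : ℕ)
    (hvan : ∀ g : GG, g • v0 = v0 → (∀ z : Qb, g (z : Om) = z) → κ g = 0) :
    ∃ T : Finset Qb, ∀ g : GG, g • v0 = v0 → g (a : Om) = a → (∀ z ∈ T, g (z : Om) = z) →
      PadicInt.toZModPow k (κ g) = 0 := by
  classical
  let s : Set GG := {g : GG | g • v0 = v0} ∩ {g : GG | PadicInt.toZModPow k (κ g) = 0}ᶜ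
  have hs : IsClosed s := by
    apply (isClosed_stab v0).inter
    apply IsOpen.isClosed_compl
    exact (W.T1.isOpen_toZModPow p k).preimage hκ
  have hcomp : IsCompact s := hs.isCompact
  have ht : ∀ z : Qb, IsClosed {g : GG | g (z : Om) = z} := by
    intro z
    have e : {g : GG | g (z : Om) = z} = {g : GG | g (z : Om) ∈ ({(z : Om)} : Set Om)ᶜ}ᶜ := by
      ext g
      simp
    rw [e]
    exact (isOpen_eval (z : Om) _).isClosed_compl
  obtain ⟨T, hT⟩ := hcomp.elim_finite_subfamily_closed (fun z : Qb => {g : GG | g (z : Om) = z}) ht (by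
    rw [Set.eq_empty_iff_forall_notMem]
    rintro g ⟨⟨h1, h2⟩, h3⟩
    apply h2
    rw [Set.mem_iInter] at h3
    change PadicInt.toZModPow k (κ g) = 0
    rw [hvan g h1 h3, map_zero])
  refine ⟨T, fun g h1 _ h3 => ?_⟩
  by_contra h4
  have : g ∈ (∅ : Set GG) := by
    rw [← hT]
    refine ⟨⟨h1, h4⟩, ?_⟩
    rw [Set.mem_iInter₂]
    exact h3
  exact this

theorem kum2 : S_KUM2 := by
  intro p _ a v0 hv0 κ hκ hmul hvan k ζ hζ
  have hpp : p.Prime := Fact.out
  have hpk : p ^ k ≠ 0 := pow_ne_zero _ hpp.ne_zero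
  have hNe : NeZero (p ^ k) := ⟨hpk⟩
  let F : IntermediateField ℚ Qb := IntermediateField.adjoin ℚ ({a} : Set Qb)
  have haF : a ∈ F := IntermediateField.mem_adjoin_simple_self ℚ a
  have _i1 : Algebra.IsAlgebraic ℚ Qb := isAlgebraic_Qb
  have _i2 : IsAlgClosed Qb := isAlgClosed_Qb
  have _i3 : IsAlgClosure ℚ Qb := ⟨inferInstance, inferInstance⟩
  have hgal : IsGalois ℚ Qb := IsAlgClosure.isGalois ℚ Qb
  have hgalF : IsGalois F Qb := IsGalois.tower_top_intermediateField F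
  -- lifts
  have hlift : ∀ σ : Qb ≃ₐ[F] Qb, ∃ g : GG, g • v0 = v0 ∧ ∀ z : Qb, g (z : Om) = (σ z : Om) := by
    intro σ
    obtain ⟨g0, hg0⟩ := W.t_SURJ (σ.restrictScalars ℚ)
    have h1 : W.IsPlace none (g0 • v0) := W.isPlace_smul g0 (a := none) hv0
    obtain ⟨δ, hδ, _, h3⟩ := W.f_PLACE none 1 (W.loc none) one_pos (pow_one _) _ _ h1 hv0
    refine ⟨δ * g0, ?_, ?_⟩
    · rw [mul_smul]; exact h3
    · intro z
      rw [AlgEquiv.mul_apply, hg0]
      exact hδ _ (σ z).2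
  choose G hG1 hG2 using hlift
  have hGa : ∀ σ, G σ (a : Om) = a := by
    intro σ
    rw [hG2]
    exact congrArg (fun y : Qb => (y : Om)) (σ.commutes ⟨a, haF⟩)
  have hdep : ∀ g g' : GG, g • v0 = v0 → g' • v0 = v0 → g (a : Om) = a → g' (a : Om) = a →
      (∀ z : Qb, g (z : Om) = g' (z : Om)) → κ g = κ g' := by
    intro g g' h1 h2 h3 h4 h5
    have h6 : g⁻¹ * g' ∈ Gam := by
      intro z hz
      rw [AlgEquiv.mul_apply, ← h5 ⟨z, hz⟩, ← AlgEquiv.mul_apply, inv_mul_cancel]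
      rfl
    have h7 : (g⁻¹ * g') • v0 = v0 := by
      rw [mul_smul, h2, inv_smul_eq_iff, h1]
    have h8 : (g⁻¹ * g') (a : Om) = a := h6 a a.2
    have h9 := hmul g (g⁻¹ * g') h1 h3 h7 h8
    rw [mul_inv_cancel_left, hvan ⟨_, h6⟩ h7, mul_zero, add_zero] at h9
    exact h9.symm
  obtain ⟨T, hT⟩ := finite_level p a v0 κ hκ k (fun g h1 h2 => hvan ⟨g, fun z hz => h2 ⟨z, hz⟩⟩ h1)
  let h : (Qb ≃ₐ[F] Qb) → ZMod (p ^ k) := fun σ => PadicInt.toZModPow k (κ (G σ))
  let c : (Qb ≃ₐ[F] Qb) → ZMod (p ^ k) := fun σ => PadicInt.toZModPow k (W.chi p (G σ) : ℤ_[p])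
  have hζ' : (ζ : Om) ^ (p ^ k) = 1 := by
    have := congrArg (fun y : Qb => (y : Om)) hζ.pow_eq_one
    exact this
  have hc : ∀ σ : Qb ≃ₐ[F] Qb, σ ζ = ζ ^ (c σ).val := by
    intro σ
    apply Subtype.ext
    have h5 : G σ (ζ : Om) = (ζ : Om) ^ (PadicInt.toZModPow k (W.chi p (G σ) : ℤ_[p])).val := by
      exact cyclotomicCharacter.spec p ((G σ : GG) : Om ≃+* Om) (ζ : Om) hζ'
    rw [← hG2, h5]
    rfl
  have hadd : ∀ σ τ, h (σ * τ) = h σ + c σ * h τ := by
    intro σ τ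
    have h1 := hmul (G σ) (G τ) (hG1 σ) (hGa σ) (hG1 τ) (hGa τ)
    have h2 : κ (G (σ * τ)) = κ (G σ * G τ) := by
      apply hdep _ _ (hG1 _) _ (hGa _)
      · rw [AlgEquiv.mul_apply, hGa, hGa]
      · intro z
        rw [AlgEquiv.mul_apply, hG2, hG2, hG2]
        rfl
      · rw [mul_smul, hG1, hG1]
    change PadicInt.toZModPow k (κ (G (σ * τ))) = _
    rw [h2, h1, map_add, map_mul]
  have hT' : ∀ σ : Qb ≃ₐ[F] Qb, (∀ x ∈ T, σ x = x) → h σ = 0 := by
    intro σ hσ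
    apply hT _ (hG1 σ) (hGa σ)
    intro z hz
    rw [hG2, hσ z hz]
  obtain ⟨α, hα0, hα⟩ := twisted F Qb (p ^ k) ζ (Nat.pos_of_ne_zero hpk) hζ h c hc hadd T hT'
  refine ⟨α, hα0, ?_, ?_⟩
  · have hfix : ∀ σ : Qb ≃ₐ[F] Qb, σ (α ^ (p ^ k)) = α ^ (p ^ k) := by
      intro σ
      rw [map_pow, hα, mul_pow, ← pow_mul, mul_comm (h σ).val, pow_mul, hζ.pow_eq_one, one_pow,
        one_mul]
    have h1 := (InfiniteGalois.mem_range_algebraMap_iff_fixed (k := F) (K := Qb) (α ^ (p ^ k))).2 hfix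
    obtain ⟨y, hy⟩ := h1
    rw [← hy]
    exact y.2
  · intro g hg1 hg2
    -- restriction of `g`
    have hFfix : ∀ y : F, W.T1G.res g (y : Qb) = y := by
      intro y
      have hle : F ≤ IntermediateField.fixedField (Subgroup.zpowers (W.T1G.res g)) := by
        apply IntermediateField.adjoin_le_iff.2
        intro x hx
        rw [Set.mem_singleton_iff] at hx
        subst hx
        rw [SetLike.mem_coe, IntermediateField.mem_fixedField_iff]
        intro f hf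
        have h1 : W.T1G.res g ∈ MulAction.stabilizer (Qb ≃ₐ[ℚ] Qb) x := by
          rw [MulAction.mem_stabilizer_iff]
          apply Subtype.ext
          exact hg2
        have h2 : Subgroup.zpowers (W.T1G.res g) ≤ MulAction.stabilizer (Qb ≃ₐ[ℚ] Qb) x :=
          Subgroup.zpowers_le.2 h1
        exact h2 hf
      have h3 := hle y.2
      rw [IntermediateField.mem_fixedField_iff] at h3
      exact h3 _ (Subgroup.mem_zpowers _)
    let σ : Qb ≃ₐ[F] Qb := AlgEquiv.ofRingEquiv (f := (W.T1G.res g : Qb ≃+* Qb)) hFfix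
    have hσ : ∀ z : Qb, ((σ z : Qb) : Om) = g (z : Om) := fun z => rfl
    have h1 : κ (G σ) = κ g := by
      apply hdep _ _ (hG1 _) hg1 (hGa _) hg2
      intro z
      rw [hG2, hσ]
    rw [← hσ, hα σ]
    change ((ζ ^ (PadicInt.toZModPow k (κ (G σ))).val * α : Qb) : Om) = _
    rw [h1]
    rfl

end Pool.Agent.H577.Kim.D550
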