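import Pool.Agent.H577.Kim.Stm

/-!
# NORM: equal absolute values of the `x - a * y` and divisibility of coefficients
-/

set_option autoImplicit false

open scoped Pointwise TensorProduct Topology Polynomial NNReal

noncomputable section

namespace Pool.Agent.H577.Kim.D696

open Y680 Y680.V Polynomial
open Pool.Agent.H577.Kim

/-- the homogenisation -/
def hm {K A : Type} [CommRing K] [CommRing A] (φ : K →+* A) (d : ℕ) (g : K[X]) (u v : A) : A :=
  ∑ i ∈ Finset.range (d + 1), φ (g.coeff i) * u ^ i * v ^ (d - i)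

lemma hm_step {K A : Type} [CommRing K] [CommRing A] (φ : K →+* A) (d : ℕ) (g : K[X])
    (hg : g.natDegree ≤ d) (a : K) (u v : A) :
    hm φ (d + 1) ((X - C a) * g) u v = (u - φ a * v) * hm φ d g u v := by
  have h1 : ∑ i ∈ Finset.range (d + 1 + 1), φ (g.coeff i) * u ^ i * v ^ (d + 1 - i) =
      v * hm φ d g u v := by
    rw [Finset.sum_range_succ, coeff_eq_zero_of_natDegree_lt (by omega : g.natDegree < d + 1)]
    unfold hm
    rw [map_zero, zero_mul, zero_mul, add_zero, Finset.mul_sum]
    refine Finset.sum_congr rfl fun i hi => ?_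
    have hi' : i ≤ d := Nat.lt_succ_iff.1 (Finset.mem_range.1 hi)
    rw [show d + 1 - i = (d - i) + 1 by omega, pow_succ]
    ring
  have h2 : hm φ (d + 1) ((X - C a) * g) u v = u * hm φ d g u v -
      φ a * ∑ i ∈ Finset.range (d + 1 + 1), φ (g.coeff i) * u ^ i * v ^ (d + 1 - i) := by
    rw [Finset.sum_range_succ']
    unfold hm
    rw [Finset.sum_range_succ']
    have e0 : φ (((X - C a) * g).coeff 0) = - (φ a * φ (g.coeff 0)) := by
      rw [sub_mul, coeff_sub, mul_coeff_zero, coeff_X_zero, zero_mul, coeff_C_mul, zero_sub,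
        map_neg, map_mul]
    have e1 : ∀ i, φ (((X - C a) * g).coeff (i + 1)) =
        φ (g.coeff i) - φ a * φ (g.coeff (i + 1)) := by
      intro i
      rw [sub_mul, coeff_sub, coeff_X_mul, coeff_C_mul, map_sub, map_mul]
    rw [e0]
    simp only [e1]
    rw [mul_add, Finset.mul_sum, Finset.mul_sum]
    have e2 : ∑ i ∈ Finset.range (d + 1), (φ (g.coeff i) - φ a * φ (g.coeff (i + 1))) *
        u ^ (i + 1) * v ^ (d + 1 - (i + 1)) =
        ∑ i ∈ Finset.range (d + 1), u * (φ (g.coeff i) * u ^ i * v ^ (d - i)) -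
          ∑ i ∈ Finset.range (d + 1), φ a * (φ (g.coeff (i + 1)) * u ^ (i + 1) *
            v ^ (d + 1 - (i + 1))) := by
      rw [← Finset.sum_sub_distrib]
      refine Finset.sum_congr rfl fun i _ => ?_
      rw [show d + 1 - (i + 1) = d - i by omega]
      ring
    rw [e2]
    ring
  rw [h2, h1]
  ring

lemma hm_prod {K A : Type} [CommRing K] [CommRing A] [Nontrivial K] (φ : K →+* A)
    (s : Multiset K) (u v : A) :
    hm φ s.card (s.map fun a => X - C a).prod u v = (s.map fun a => u - φ a * v).prod := by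
  induction s using Multiset.induction_on with
  | empty => simp [hm]
  | cons a s ih =>
    rw [Multiset.card_cons, Multiset.map_cons, Multiset.prod_cons, Multiset.map_cons,
      Multiset.prod_cons, hm_step, ih]
    exact (natDegree_multiset_prod_X_sub_C_eq_card s).le

lemma form_map {R S : Type} [CommRing R] [CommRing S] (f : ℤ[X]) (φ : R →+* S) (u v : R) :
    φ (form f u v) = form f (φ u) (φ v) := by
  unfold form
  rw [map_sum]
  refine Finset.sum_congr rfl fun i _ => ?_
  rw [map_mul, map_mul, map_pow, map_pow, map_intCast]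

/-- the form is a product over the roots -/
lemma form_prod {K A : Type} [Field K] [CommRing A] (φ : K →+* A) (f : ℤ[X]) (hf : f.Monic)
    (hsp : (f.map (Int.castRingHom K)).Splits) (u v : A) :
    form f u v = ((f.map (Int.castRingHom K)).roots.map fun a => u - φ a * v).prod := by
  have h1 : (f.map (Int.castRingHom K)).roots.card = f.natDegree := by
    rw [← hsp.natDegree_eq_card_roots, hf.natDegree_map]
  have h2 : (((f.map (Int.castRingHom K)).roots).map fun a => X - C a).prod =
      f.map (Int.castRingHom K) := (hsp.eq_prod_roots_of_monic (hf.map _)).symm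
  rw [← hm_prod, h1, h2]
  unfold form hm
  refine Finset.sum_congr rfl fun i _ => ?_
  rw [coeff_map, eq_intCast, map_intCast]

/-- the coefficients of a product of linear factors with small roots -/
lemma coeff_bound {K : Type} [NormedField K] [IsUltrametricDist K] {ρ : ℝ} (hρ : 0 ≤ ρ)
    (s : Multiset K) (hs : ∀ r ∈ s, ‖r‖ ≤ ρ) (k : ℕ) :
    ‖((s.map fun r => (X : K[X]) + C r).prod).coeff k‖ * ρ ^ k ≤ ρ ^ s.card := by
  induction s using Multiset.induction_on generalizing k with
  | empty =>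
    rw [Multiset.map_zero, Multiset.prod_zero, Multiset.card_zero, pow_zero, coeff_one]
    by_cases hk : k = 0
    · rw [if_pos hk, hk, pow_zero, norm_one, mul_one]
    · rw [if_neg hk, norm_zero, zero_mul]
      exact zero_le_one
  | cons r s ih =>
    have ih' := ih (fun r hr => hs r (Multiset.mem_cons_of_mem hr))
    have hr := hs r (Multiset.mem_cons_self r s)
    rw [Multiset.map_cons, Multiset.prod_cons, Multiset.card_cons, add_mul, coeff_add,
      coeff_C_mul]
    set g : K[X] := (s.map fun r => (X : K[X]) + C r).prod with hg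
    have hb : ∀ k, ‖r * g.coeff k‖ * ρ ^ k ≤ ρ ^ (s.card + 1) := by
      intro k
      rw [norm_mul, pow_succ, mul_comm (ρ ^ s.card) ρ, mul_assoc]
      exact mul_le_mul hr (ih' k) (by positivity) hρ
    cases k with
    | zero =>
      rw [mul_coeff_zero, coeff_X_zero, zero_mul, zero_add]
      exact hb 0
    | succ k =>
      rw [coeff_X_mul]
      have h1 := IsUltrametricDist.norm_add_le_max (g.coeff k) (r * g.coeff (k + 1))
      have h2 : ‖g.coeff k‖ * ρ ^ (k + 1) ≤ ρ ^ (s.card + 1) := by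
        rw [pow_succ, pow_succ, ← mul_assoc]
        exact mul_le_mul_of_nonneg_right (ih' k) hρ
      have h3 : 0 ≤ ρ ^ (k + 1) := by positivity
      calc _ ≤ max ‖g.coeff k‖ ‖r * g.coeff (k + 1)‖ * ρ ^ (k + 1) :=
            mul_le_mul_of_nonneg_right h1 h3
        _ = max (‖g.coeff k‖ * ρ ^ (k + 1)) (‖r * g.coeff (k + 1)‖ * ρ ^ (k + 1)) :=
            max_mul_of_nonneg _ _ h3
        _ ≤ _ := max_le h2 (hb (k + 1))

/-- divisibility from all `l`-adic norms -/
lemma dvd_of_norm {a b : ℤ} (h : ∀ (l : ℕ) [Fact l.Prime], ‖(b : ℚ_[l])‖ ≤ ‖(a : ℚ_[l])‖) :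
    a ∣ b := by
  rw [← Int.natAbs_dvd_natAbs, Nat.dvd_iff_prime_pow_dvd_dvd]
  intro l k hl hk
  have : Fact l.Prime := ⟨hl⟩
  have h1 : ((l ^ k : ℕ) : ℤ) ∣ a := Int.natCast_dvd.2 hk
  have h2 : ((l ^ k : ℕ) : ℤ) ∣ b := by
    have h3 : ‖(a : ℚ_[l])‖ ≤ (l : ℝ) ^ (-(k : ℤ)) :=
      (Padic.norm_int_le_pow_iff_dvd a k).2 (by exact_mod_cast h1)
    have h4 := (Padic.norm_int_le_pow_iff_dvd b k).1 ((h l).trans h3)
    exact_mod_cast h4
  exact Int.natCast_dvd.1 h2

lemma norm_coe (l : ℕ) [Fact l.Prime] (n : ℤ) : ‖(n : PadicAlgCl l)‖ = ‖(n : ℚ_[l])‖ := by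
  rw [← map_intCast (algebraMap ℚ_[l] (PadicAlgCl l))]
  exact PadicAlgCl.norm_extends l n

/-- the bound at one prime -/
lemma at_prime (f : ℤ[X]) (hf : f.Monic) (x y : ℤ) (hD : form f x y ≠ 0) (l : ℕ) [Fact l.Prime]
    (hd : 0 < f.natDegree)
    (h : ∀ a b : AlgebraicClosure ℚ_[l],
      Polynomial.eval₂ (Int.castRingHom (AlgebraicClosure ℚ_[l])) a f = 0 →
      Polynomial.eval₂ (Int.castRingHom (AlgebraicClosure ℚ_[l])) b f = 0 →
      (Valued.v : Valuation (PadicAlgCl l) ℝ≥0) ((x : AlgebraicClosure ℚ_[l]) - a * y) =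
        (Valued.v : Valuation (PadicAlgCl l) ℝ≥0) ((x : AlgebraicClosure ℚ_[l]) - b * y))
    (j : ℕ) (hj : j ≤ f.natDegree) :
    ‖((((form f (C x + X) (C y)).coeff (f.natDegree - j) ^ f.natDegree : ℤ)) : ℚ_[l])‖ ≤
      ‖(((form f x y ^ j : ℤ)) : ℚ_[l])‖ := by
  set K := PadicAlgCl l with hK
  have hsp : (f.map (Int.castRingHom K)).Splits := IsAlgClosed.splits _
  set s : Multiset K := (f.map (Int.castRingHom K)).roots with hs
  have hcard : s.card = f.natDegree := by
    rw [hs, ← hsp.natDegree_eq_card_roots, hf.natDegree_map]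
  have hne : f.map (Int.castRingHom K) ≠ 0 := (hf.map _).ne_zero
  have hroot : ∀ a ∈ s, Polynomial.eval₂ (Int.castRingHom K) a f = 0 := by
    intro a ha
    have h1 := (mem_roots hne).1 ha
    rwa [IsRoot.def, eval_map] at h1
  have hnorm : ∀ a ∈ s, ∀ b ∈ s, ‖(x : K) - a * y‖ = ‖(x : K) - b * y‖ := by
    intro a ha b hb
    have h1 := h a b (hroot a ha) (hroot b hb)
    have h2 := congrArg (fun t : ℝ≥0 => (t : ℝ)) h1
    exact h2
  have hpos : 0 < s.card := by rw [hcard]; exact hd
  obtain ⟨a₀, ha₀⟩ := Multiset.card_pos_iff_exists_mem.1 hpos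
  set ρ : ℝ := ‖(x : K) - a₀ * y‖ with hρ
  -- the value of the form
  have hDK : ((form f x y : ℤ) : K) = (s.map fun a => (x : K) - a * y).prod := by
    have h1 := form_map f (Int.castRingHom K) x y
    rw [eq_intCast, eq_intCast, eq_intCast] at h1
    rw [h1, form_prod (RingHom.id K) f hf hsp]
    rfl
  have hDn : ‖((form f x y : ℤ) : ℚ_[l])‖ = ρ ^ f.natDegree := by
    rw [← norm_coe, hDK, ← hcard]
    have h1 : ‖(s.map fun a => (x : K) - a * y).prod‖ =
        (s.map fun a => ‖(x : K) - a * y‖).prod := by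
      have h2 := map_multiset_prod (normHom : K →*₀ ℝ) (s.map fun a => (x : K) - a * y)
      rw [Multiset.map_map] at h2
      exact h2
    rw [h1, Multiset.map_congr rfl fun a ha => hnorm a ha a₀ ha₀, Multiset.map_const',
      Multiset.prod_replicate]
  have hρ0 : 0 < ρ := by
    rcases (norm_nonneg ((x : K) - a₀ * y)).lt_or_eq with h1 | h1
    · exact h1
    · exfalso
      have h2 : ρ = 0 := h1.symm
      rw [h2, zero_pow hd.ne', norm_eq_zero, Int.cast_eq_zero] at hDn
      exact hD hDn
  -- the coefficient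
  have hek : (((form f (C x + X) (C y)).coeff (f.natDegree - j) : ℤ) : K) =
      (((s.map fun a => (x : K) - a * y).map fun r => (X : K[X]) + C r).prod).coeff
        (f.natDegree - j) := by
    have h1 := form_map f (mapRingHom (Int.castRingHom K)) (C x + X) (C y)
    rw [map_add, coe_mapRingHom, map_C, map_C, map_X] at h1
    have h2 := congrArg (fun g : K[X] => g.coeff (f.natDegree - j)) h1
    simp only [coeff_map] at h2
    refine Eq.trans h2 ?_
    rw [form_prod (C : K →+* K[X]) f hf hsp, Multiset.map_map]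
    congr 2
    refine Multiset.map_congr rfl fun a _ => ?_
    rw [Function.comp_apply, C_sub, C_mul]
    show C (x : K) + X - C a * C (y : K) = _
    ring
  have hen : ‖(((form f (C x + X) (C y)).coeff (f.natDegree - j) : ℤ) : ℚ_[l])‖ ≤ ρ ^ j := by
    rw [← norm_coe, hek]
    have h1 := coeff_bound hρ0.le (s.map fun a => (x : K) - a * y) (by
      intro r hr
      obtain ⟨a, ha, rfl⟩ := Multiset.mem_map.1 hr
      exact (hnorm a ha a₀ ha₀).le) (f.natDegree - j)
    rw [Multiset.card_map, hcard] at h1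
    have h2 : ρ ^ f.natDegree = ρ ^ j * ρ ^ (f.natDegree - j) := by
      rw [← pow_add]
      congr 1
      omega
    rw [h2] at h1
    exact le_of_mul_le_mul_right h1 (by positivity)
  rw [Int.cast_pow, Int.cast_pow, norm_pow, norm_pow, hDn]
  calc _ ≤ (ρ ^ j) ^ f.natDegree := pow_le_pow_left₀ (norm_nonneg _) hen _
    _ = _ := by rw [← pow_mul, ← pow_mul, mul_comm]

/-- **NORM** -/
theorem norm : S_NORM := by
  intro f p x y hf hp hpD h j hj
  have hD : form f x y ≠ 0 := fun h0 => hpD (by rw [h0]; exact dvd_zero _)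
  rcases Nat.eq_zero_or_pos f.natDegree with hd | hd
  · have hj0 : j = 0 := by omega
    rw [hj0, pow_zero]
    exact one_dvd _
  refine dvd_of_norm fun l _ => ?_
  by_cases hl : l = p
  · subst hl
    have h1 : ‖((form f x y : ℤ) : ℚ_[l])‖ = 1 := by
      refine le_antisymm (Padic.norm_int_le_one _) ?_
      by_contra hcon
      exact hpD (Padic.norm_intCast_lt_one_iff.1 (not_le.1 hcon))
    rw [Int.cast_pow, Int.cast_pow, norm_pow, norm_pow, h1, one_pow]
    exact pow_le_one₀ (norm_nonneg _) (Padic.norm_int_le_one _)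
  · exact at_prime f hf x y hD l hd (h l hl) j hj

end Pool.Agent.H577.Kim.D696
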