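import Pool.Agent.H577.Kim.Stm3

/-!
TW (interface `S_TW` of Pool/Agent/H577/Kim/Stm3.lean, MP_fd87b4_nt): conjugation by elements fixing
the function multiplies the Kummer character by the cyclotomic character. Adapted from
Y680/W/T_K2.lean.
-/

open scoped Pointwise TensorProduct Topology Polynomial NNReal

noncomputable section

namespace Pool.Agent.H577.Kim.D199

open Y680 Y680.V Polynomial
open Y680.W (GG Gam Qb map_Qb)
open Pool.Agent.H577.Kim

theorem hasEnough (p : ℕ) [Fact p.Prime] (i : ℕ) : HasEnoughRootsOfUnity Om (p ^ i) := by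
  have : NeZero (p ^ i) := ⟨pow_ne_zero _ (Fact.out : p.Prime).ne_zero⟩
  infer_instance

theorem tw : S_TW := by
  intro p _ F lam y ζ hF hyp hζ hγ g hg γ
  rw [← PadicInt.ext_of_toZModPow]
  intro k
  have hpk : p ^ k ≠ 0 := pow_ne_zero _ (Fact.out : p.Prime).ne_zero
  have : NeZero (p ^ k) := ⟨hpk⟩
  have hy : y k ≠ 0 := by
    intro h
    apply hF
    rw [← hyp k, h, zero_pow hpk]
  -- g y is a root-of-unity multiple of y
  have h1 : (g (y k)) ^ (p ^ k) = y k ^ (p ^ k) := by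
    rw [← map_pow, hyp, hg]
  have hgy : g (y k) ≠ 0 := by simpa using hy
  set η : Om := g (y k) / y k with hη
  have hη1 : η ^ (p ^ k) = 1 := by
    rw [hη, div_pow, h1, div_self (pow_ne_zero _ hy)]
  have hηy : g (y k) = η * y k := by rw [hη, div_mul_cancel₀ _ hy]
  have hηQ : η ∈ Qb := by
    rw [mem_algebraicClosure_iff]
    exact IsIntegral.isAlgebraic ⟨Polynomial.X ^ (p ^ k) - 1, Polynomial.monic_X_pow_sub_C 1 hpk, by
      simp [hη1]⟩
  have h2 : ((W.cj g γ : Gam) : GG) (g (y k)) = g ((γ : GG) (y k)) := by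
    rw [W.cj_coe, AlgEquiv.mul_apply, AlgEquiv.mul_apply]
    congr 2
    rw [← AlgEquiv.mul_apply, inv_mul_cancel]
    rfl
  have h3 : g ((γ : GG) (y k)) = (g (ζ k)) ^ (PadicInt.toZModPow k (lam γ)).val * g (y k) := by
    rw [hγ γ, map_mul, map_pow]
  have h4 : ((W.cj g γ : Gam) : GG) (g (y k)) =
      ζ k ^ (PadicInt.toZModPow k (lam (W.cj g γ))).val * g (y k) := by
    rw [hηy, map_mul, (W.cj g γ).2 η hηQ, hγ (W.cj g γ)]
    ring
  have h5 : g (ζ k) = ζ k ^ (PadicInt.toZModPow k (W.chi p g : ℤ_[p])).val := by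
    have := hasEnough p
    exact cyclotomicCharacter.spec p (g : Om ≃+* Om) (ζ k) (hζ k).pow_eq_one
  have h6 : ζ k ^ (PadicInt.toZModPow k (lam (W.cj g γ))).val =
      ζ k ^ ((PadicInt.toZModPow k (W.chi p g : ℤ_[p])).val *
        (PadicInt.toZModPow k (lam γ)).val) := by
    rw [pow_mul, ← h5]
    apply mul_right_cancel₀ hgy
    rw [← h4, ← h3, h2]
  have h7 : ((PadicInt.toZModPow k (lam (W.cj g γ))).val : ZMod (p ^ k)) =
      (((PadicInt.toZModPow k (W.chi p g : ℤ_[p])).val *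
        (PadicInt.toZModPow k (lam γ)).val : ℕ) : ZMod (p ^ k)) := by
    rw [ZMod.natCast_eq_natCast_iff]
    obtain ⟨u, hu⟩ := (hζ k).isUnit hpk
    have hu1 : IsPrimitiveRoot u (p ^ k) := by
      rw [← IsPrimitiveRoot.coe_units_iff, hu]
      exact hζ k
    have h9 : orderOf u = p ^ k := hu1.eq_orderOf.symm
    have key : ∀ a b : ℕ, ζ k ^ a = ζ k ^ b → a % (p ^ k) = b % (p ^ k) := by
      intro a b hab
      rw [← h9]
      apply (pow_inj_mod).1
      apply Units.ext
      rw [Units.val_pow_eq_pow_val, Units.val_pow_eq_pow_val, hu]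
      exact hab
    exact key _ _ h6
  rw [ZMod.natCast_zmod_val, Nat.cast_mul, ZMod.natCast_zmod_val, ZMod.natCast_zmod_val] at h7
  rw [h7, map_mul]

end Pool.Agent.H577.Kim.D199
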