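import Mathlib

set_option autoImplicit false
set_option linter.all false

/-!
# Elements of number fields all whose valuations are divisible by `q` (helper903 for helper577)
-/

open scoped NNReal NumberField Pointwise
open IsDedekindDomain

noncomputable section

namespace Pool.Agent.H577.Kim.D903

/-- the norm of an integral element is at most one -/
theorem norm_le_one_of_int {l : ℕ} [Fact l.Prime] {z : PadicAlgCl l} (hz : IsIntegral ℤ z) :
    ‖z‖ ≤ 1 := by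
  have h1 : IsIntegral (Valued.v : Valuation (PadicAlgCl l) ℝ≥0).integer z := hz.tower_top
  have h2 := (Valuation.integer.integers (Valued.v : Valuation (PadicAlgCl l) ℝ≥0)).mem_of_integral h1
  rw [Valuation.mem_integer_iff, PadicAlgCl.valuation_def] at h2
  exact_mod_cast h2

section K

variable {K : Type} [Field K] [NumberField K] {l : ℕ} [Fact l.Prime]

theorem norm_le (j : K →+* PadicAlgCl l) (x : 𝓞 K) : ‖j (x : K)‖ ≤ 1 := by
  refine norm_le_one_of_int ?_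
  have h := x.isIntegral_coe
  exact h.map (j.toIntAlgHom)

/-- the prime of an embedding -/
def pr (j : K →+* PadicAlgCl l) : Ideal (𝓞 K) where
  carrier := {x | ‖j (x : K)‖ < 1}
  zero_mem' := by
    show ‖j ((0 : 𝓞 K) : K)‖ < 1
    simp
  add_mem' := by
    intro x y hx hy
    show ‖j ((x + y : 𝓞 K) : K)‖ < 1
    have e : ((x + y : 𝓞 K) : K) = (x : K) + (y : K) := rfl
    rw [e, map_add]
    exact lt_of_le_of_lt (PadicAlgCl.isNonarchimedean l _ _) (max_lt hx hy)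
  smul_mem' := by
    intro c x hx
    show ‖j ((c * x : 𝓞 K) : K)‖ < 1
    have e : ((c * x : 𝓞 K) : K) = (c : K) * (x : K) := rfl
    rw [e, map_mul, norm_mul]
    calc ‖j (c : K)‖ * ‖j (x : K)‖ ≤ 1 * ‖j (x : K)‖ :=
          mul_le_mul_of_nonneg_right (norm_le j c) (norm_nonneg _)
      _ = ‖j (x : K)‖ := one_mul _
      _ < 1 := hx

theorem mem_pr {j : K →+* PadicAlgCl l} {x : 𝓞 K} : x ∈ pr j ↔ ‖j (x : K)‖ < 1 := Iff.rfl

instance pr_prime (j : K →+* PadicAlgCl l) : (pr j).IsPrime := by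
  refine ⟨?_, ?_⟩
  · intro h
    have h1 : (1 : 𝓞 K) ∈ pr j := by
      rw [h]
      trivial
    rw [mem_pr] at h1
    have e : ((1 : 𝓞 K) : K) = 1 := rfl
    rw [e, map_one, norm_one] at h1
    exact lt_irrefl _ h1
  · intro x y hxy
    rw [mem_pr] at hxy ⊢
    rw [mem_pr]
    have e : ((x * y : 𝓞 K) : K) = (x : K) * (y : K) := rfl
    rw [e, map_mul, norm_mul] at hxy
    by_contra h
    push Not at h
    have h1 : 1 ≤ ‖j (x : K)‖ * ‖j (y : K)‖ := one_le_mul_of_one_le_of_one_le h.1 h.2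
    linarith

theorem under_pr (j : K →+* PadicAlgCl l) : (pr j).under ℤ = Ideal.span {(l : ℤ)} := by
  have h1 : (l : ℤ) ∈ (pr j).under ℤ := by
    rw [Ideal.under_def, Ideal.mem_comap, mem_pr]
    have e : j ((algebraMap ℤ (𝓞 K) (l : ℤ) : 𝓞 K) : K) = ((l : ℚ_[l]) : PadicAlgCl l) := by
      rw [map_natCast]
      have e1 : (((l : ℕ) : 𝓞 K) : K) = (l : K) := rfl
      rw [e1, map_natCast]
      symm
      exact map_natCast (algebraMap ℚ_[l] (PadicAlgCl l)) l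
    rw [e, PadicAlgCl.norm_extends]
    exact Padic.norm_p_lt_one
  have h2 : Ideal.span {(l : ℤ)} ≤ (pr j).under ℤ := by
    rw [Ideal.span_singleton_le_iff_mem]
    exact h1
  exact ((Int.ideal_span_isMaximal_of_prime l).eq_of_le (Ideal.IsPrime.ne_top inferInstance) h2).symm

/-- every prime comes from an embedding -/
theorem exists_emb [IsGalois ℚ K] (v : HeightOneSpectrum (𝓞 K)) :
    ∃ (l : ℕ) (_ : Fact l.Prime) (j : K →+* PadicAlgCl l), pr j = v.asIdeal := by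
  have hP : v.asIdeal.IsPrime := v.isPrime
  have hP0 : NeZero v.asIdeal := ⟨v.ne_bot⟩
  have hl := Nat.absNorm_under_prime v.asIdeal
  refine ⟨_, ⟨hl⟩, ?_⟩
  haveI : Fact (Ideal.absNorm (v.asIdeal.under ℤ)).Prime := ⟨hl⟩
  let j₀ : K →ₐ[ℚ] PadicAlgCl (Ideal.absNorm (v.asIdeal.under ℤ)) := IsAlgClosed.lift
  have h1 : (pr j₀.toRingHom).under ℤ = v.asIdeal.under ℤ := by
    rw [under_pr]
    exact Int.ideal_span_absNorm_eq_self _
  obtain ⟨g, hg⟩ := Algebra.IsInvariant.exists_smul_of_under_eq ℤ (𝓞 K) Gal(K/ℚ)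
    (pr j₀.toRingHom) v.asIdeal h1
  refine ⟨j₀.toRingHom.comp ((g⁻¹ : Gal(K/ℚ)) : K ≃ₐ[ℚ] K).toAlgHom.toRingHom, ?_⟩
  refine Eq.trans ?_ hg.symm
  ext x
  rw [Ideal.mem_pointwise_smul_iff_inv_smul_mem]
  rfl

/-- the valuation of a prime and the norm for the embedding -/
theorem norm_le_of_val {j : K →+* PadicAlgCl l} {v : HeightOneSpectrum (𝓞 K)}
    (h : pr j = v.asIdeal) {x : K} (hx : v.valuation K x ≤ 1) : ‖j x‖ ≤ 1 := by
  obtain ⟨n, d, hnd⟩ := v.exists_primeCompl_mul_eq_of_integer x hx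
  have h1 : ‖j ((d : 𝓞 K) : K)‖ = 1 := by
    refine le_antisymm (norm_le j _) (not_lt.1 fun h2 => ?_)
    have h3 : (d : 𝓞 K) ∈ pr j := h2
    rw [h] at h3
    exact d.2 h3
  have h2 : ‖j x‖ * ‖j ((d : 𝓞 K) : K)‖ = ‖j (n : K)‖ := by
    rw [← norm_mul, ← map_mul]
    exact congrArg (fun y => ‖j y‖) hnd
  rw [h1, mul_one] at h2
  rw [h2]
  exact norm_le j n

theorem norm_eq_of_val {j : K →+* PadicAlgCl l} {v : HeightOneSpectrum (𝓞 K)}
    (h : pr j = v.asIdeal) {x : K} (hx : v.valuation K x = 1) : ‖j x‖ = 1 := by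
  have h1 := norm_le_of_val h hx.le
  have h2 : ‖j x⁻¹‖ ≤ 1 := norm_le_of_val h (by rw [map_inv₀, hx, inv_one])
  rw [map_inv₀, norm_inv] at h2
  have hx0 : x ≠ 0 := by
    rintro rfl
    rw [map_zero] at hx
    exact zero_ne_one hx
  have h3 : 0 < ‖j x‖ := norm_pos_iff.2 ((map_ne_zero j).2 hx0)
  have h4 : 1 ≤ ‖j x‖ := (inv_le_one₀ h3).1 h2
  exact le_antisymm h1 h4

/-- divisibility of the valuation -/
theorem val_dvd {j : K →+* PadicAlgCl l} {v : HeightOneSpectrum (𝓞 K)}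
    (h : pr j = v.asIdeal) {A b : K} (hA : A ≠ 0) {q : ℕ} (hq : 0 < q)
    (hAb : ‖j b‖ ^ q = ‖j A‖) : ∃ c : ℤ, v.valuation K A = WithZero.exp ((q : ℤ) * c) := by
  obtain ⟨π, hπ⟩ := v.valuation_exists_uniformizer K
  have hπ0 : π ≠ 0 := by
    rintro rfl
    rw [map_zero] at hπ
    exact WithZero.exp_ne_zero hπ.symm
  have hb : b ≠ 0 := by
    rintro rfl
    rw [map_zero, norm_zero, zero_pow hq.ne'] at hAb
    exact hA ((map_eq_zero j).1 (norm_eq_zero.1 hAb.symm))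
  have key : ∀ y : K, y ≠ 0 → ∃ n : ℤ, v.valuation K y = WithZero.exp n ∧ ‖j y‖ = ‖j π‖ ^ (-n) := by
    intro y hy
    have hy0 : v.valuation K y ≠ 0 := (Valuation.ne_zero_iff _).2 hy
    refine ⟨WithZero.log (v.valuation K y), (WithZero.exp_log hy0).symm, ?_⟩
    set n := WithZero.log (v.valuation K y) with hn
    have h1 : v.valuation K (y * π ^ n) = 1 := by
      rw [map_mul, map_zpow₀, hπ, ← WithZero.exp_log hy0, ← hn, ← WithZero.exp_zsmul,
        ← WithZero.exp_add]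
      simp
    have h2 := norm_eq_of_val h h1
    rw [map_mul, map_zpow₀, norm_mul, norm_zpow] at h2
    rw [zpow_neg]
    exact eq_inv_of_mul_eq_one_left h2
  obtain ⟨n, hn1, hn2⟩ := key A hA
  obtain ⟨m, hm1, hm2⟩ := key b hb
  have hπ1 : ‖j π‖ < 1 := by
    have h0 : (WithZero.exp (-1) : WithZero (Multiplicative ℤ)) < 1 := by
      rw [← WithZero.exp_zero, WithZero.exp_lt_exp]
      norm_num
    have h1 : v.valuation K π ≤ 1 := by
      rw [hπ]
      exact h0.le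
    obtain ⟨r, d, hrd⟩ := v.exists_primeCompl_mul_eq_of_integer π h1
    have h2 : ‖j ((d : 𝓞 K) : K)‖ = 1 := by
      refine le_antisymm (norm_le j _) (not_lt.1 fun h2 => ?_)
      have h3 : (d : 𝓞 K) ∈ pr j := h2
      rw [h] at h3
      exact d.2 h3
    have h3 : r ∈ v.asIdeal := by
      rw [← v.valuation_lt_one_iff_mem (K := K)]
      show v.valuation K (algebraMap (𝓞 K) K r) < 1
      rw [← hrd, map_mul, hπ]
      have h4 : v.valuation K (algebraMap (𝓞 K) K d) ≤ 1 := v.valuation_le_one _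
      calc WithZero.exp (-1) * v.valuation K (algebraMap (𝓞 K) K d) ≤ WithZero.exp (-1) * 1 :=
            mul_le_mul_right h4 _
        _ < 1 := by
            rw [mul_one]
            exact h0
    rw [← h, mem_pr] at h3
    have h4 : ‖j π‖ * ‖j ((d : 𝓞 K) : K)‖ = ‖j (r : K)‖ := by
      rw [← norm_mul, ← map_mul]
      exact congrArg (fun y => ‖j y‖) hrd
    rw [h2, mul_one] at h4
    rw [h4]
    exact h3
  have hπpos : 0 < ‖j π‖ := norm_pos_iff.2 ((map_ne_zero j).2 hπ0)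
  rw [hn2, hm2, ← zpow_natCast, ← zpow_mul] at hAb
  have h5 : -m * (q : ℤ) = -n := zpow_right_injective₀ hπpos hπ1.ne hAb
  refine ⟨m, ?_⟩
  rw [hn1]
  congr 1
  linarith

/-- the ideal of an element whose valuations are divisible by `q` is a power -/
theorem exists_pow {A : 𝓞 K} (hA : A ≠ 0) {q : ℕ}
    (h : ∀ v : HeightOneSpectrum (𝓞 K), ∃ c : ℤ,
      v.valuation K (algebraMap (𝓞 K) K A) = WithZero.exp ((q : ℤ) * c)) :
    ∃ J : Ideal (𝓞 K), J ^ q = Ideal.span {A} := by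
  have h0 : Associates.mk (Ideal.span {A} : Ideal (𝓞 K)) ≠ 0 := by
    rw [Associates.mk_ne_zero]
    intro h
    exact hA (Ideal.span_singleton_eq_bot.1 h)
  obtain ⟨b, hb⟩ := Associates.is_pow_of_dvd_count h0 (k := q) (by
    intro p hp
    obtain ⟨P, rfl⟩ := Associates.mk_surjective p
    rw [Associates.irreducible_mk] at hp
    have hP : Prime P := hp.prime
    let v : HeightOneSpectrum (𝓞 K) := ⟨P, Ideal.isPrime_of_prime hP, hP.ne_zero⟩
    obtain ⟨c, hc⟩ := h v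
    rw [v.valuation_of_algebraMap, v.intValuation_if_neg hA, WithZero.exp_inj] at hc
    have h1 : ((Associates.mk P).count (Associates.mk (Ideal.span {A} : Ideal (𝓞 K))).factors : ℤ) =
        (q : ℤ) * (-c) := by
      rw [mul_neg, ← hc, neg_neg]
    exact_mod_cast (Dvd.intro _ h1.symm : (q : ℤ) ∣ _))
  obtain ⟨J, rfl⟩ := Associates.mk_surjective b
  refine ⟨J, ?_⟩
  rw [← Associates.mk_pow, Associates.mk_eq_mk_iff_associated, associated_iff_eq] at hb
  exact hb.symm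

/-- **The abstract theorem.** -/
theorem abs_main [IsGalois ℚ K] (w : ℕ) (hw : 0 < w) (hu : ∀ u : (𝓞 K)ˣ, u ^ w = 1) :
    ∃ M : ℕ, 0 < M ∧ ∀ q : ℕ, 0 < q → ∀ A : K, A ≠ 0 →
      (∀ (l : ℕ) (_ : Fact l.Prime) (j : K →+* PadicAlgCl l), ∃ b : K, ‖j b‖ ^ q = ‖j A‖) →
      ∃ B : K, A ^ M = B ^ q := by
  refine ⟨Fintype.card (ClassGroup (𝓞 K)) * w, Nat.mul_pos Fintype.card_pos hw, ?_⟩
  intro q hq A hA hj
  set h := Fintype.card (ClassGroup (𝓞 K)) with hh
  obtain ⟨s, t, ht, hst⟩ := IsFractionRing.div_surjective (A := 𝓞 K) A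
  have ht0 : t ≠ 0 := nonZeroDivisors.ne_zero ht
  have hT0 : algebraMap (𝓞 K) K t ≠ 0 := by
    intro h0
    exact ht0 ((FaithfulSMul.algebraMap_injective (𝓞 K) K) (by rw [h0, map_zero]))
  set T : K := algebraMap (𝓞 K) K t with hT
  obtain ⟨A', hA'⟩ : ∃ A' : 𝓞 K, algebraMap (𝓞 K) K A' = A * T ^ q := by
    refine ⟨s * t ^ (q - 1), ?_⟩
    rw [map_mul, map_pow, ← hst, ← hT]
    obtain ⟨q', rfl⟩ : ∃ q', q = q' + 1 := ⟨q - 1, by omega⟩
    rw [Nat.add_sub_cancel, pow_succ]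
    field_simp
  have hA'0 : A' ≠ 0 := by
    rintro rfl
    rw [map_zero] at hA'
    exact mul_ne_zero hA (pow_ne_zero _ hT0) hA'.symm
  obtain ⟨J, hJ⟩ := exists_pow hA'0 (q := q) (by
    intro v
    obtain ⟨l, hl, j, hjv⟩ := exists_emb v
    obtain ⟨b, hb⟩ := hj l hl j
    refine val_dvd hjv (b := b * T) (by rw [hA']; exact mul_ne_zero hA (pow_ne_zero _ hT0)) hq ?_
    rw [hA', map_mul, map_mul, map_pow, norm_mul, norm_mul, norm_pow, mul_pow, hb])
  have hJ0 : J ≠ 0 := by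
    rintro rfl
    rw [zero_pow hq.ne'] at hJ
    exact hA'0 (Ideal.span_singleton_eq_bot.1 hJ.symm)
  have hJm : J ∈ nonZeroDivisors (Ideal (𝓞 K)) := mem_nonZeroDivisors_of_ne_zero hJ0
  have h1 : (ClassGroup.mk0 (⟨J, hJm⟩ : nonZeroDivisors (Ideal (𝓞 K)))) ^ h = 1 := pow_card_eq_one
  rw [← map_pow] at h1
  have h2 : ((⟨J, hJm⟩ : nonZeroDivisors (Ideal (𝓞 K))) ^ h : nonZeroDivisors (Ideal (𝓞 K))) =
      ⟨J ^ h, pow_mem hJm h⟩ := rfl
  rw [h2, ClassGroup.mk0_eq_one_iff] at h1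
  obtain ⟨B₀, hB₀⟩ := h1.principal
  have hB₀' : J ^ h = Ideal.span {B₀} := hB₀
  have h3 : Ideal.span {A' ^ h} = Ideal.span {B₀ ^ q} := by
    rw [← Ideal.span_singleton_pow, ← Ideal.span_singleton_pow, ← hJ, ← hB₀', ← pow_mul, ← pow_mul,
      mul_comm]
  rw [Ideal.span_singleton_eq_span_singleton] at h3
  obtain ⟨u, hu'⟩ := h3
  have h4 : A' ^ (h * w) = (B₀ ^ w) ^ q := by
    have h5 : (A' ^ h * (u : 𝓞 K)) ^ w = (B₀ ^ q) ^ w := by rw [hu']
    rw [mul_pow, ← Units.val_pow_eq_pow_val, hu u, Units.val_one, mul_one, ← pow_mul] at h5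
    rw [h5, ← pow_mul, ← pow_mul, mul_comm]
  refine ⟨algebraMap (𝓞 K) K (B₀ ^ w) / T ^ (h * w), ?_⟩
  rw [div_pow, ← map_pow, ← h4, map_pow, hA', mul_pow, ← pow_mul, ← pow_mul, mul_comm q (h * w)]
  rw [mul_div_assoc, div_self (pow_ne_zero _ hT0), mul_one]

end K

end Pool.Agent.H577.Kim.D903
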