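import Pool.Agent.H577.Kim.Stm3
import Pool.Agent.H577.Kim.Done.U1

set_option autoImplicit false
set_option linter.all false

/-!
# Task UNIT0 (helper903 for helper577)
-/

open scoped NNReal NumberField Pointwise TensorProduct Topology Polynomial
open IsDedekindDomain

noncomputable section

namespace Pool.Agent.H577.Kim.D903

open Y680 Y680.V Polynomial
open Y680.W (GG Gam Qb map_Qb)
open Pool.Agent.H577.Kim (IQ S_UNIT0)

/-- elements of a quadratic extension -/
theorem quad_rep {F E : Type} [Field F] [Field E] [Algebra F E] {a : E} (u v : F)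
    (h : a ^ 2 + algebraMap F E u * a + algebraMap F E v = 0) {x : E}
    (hx : x ∈ IntermediateField.adjoin F ({a} : Set E)) :
    ∃ r s : F, x = algebraMap F E r + algebraMap F E s * a := by
  have hint : IsIntegral F a := by
    refine ⟨X ^ 2 + C u * X + C v, ?_, ?_⟩
    · monicity!
    · simpa using h
  have h1 : x ∈ Algebra.adjoin F ({a} : Set E) := by
    rw [← IntermediateField.adjoin_simple_toSubalgebra_of_isAlgebraic hint.isAlgebraic]
    exact hx
  refine Algebra.adjoin_induction (p := fun x _ => ∃ r s : F, x = algebraMap F E r + algebraMap F E s * a)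
    ?_ ?_ ?_ ?_ h1
  · intro y hy
    rw [Set.mem_singleton_iff] at hy
    exact ⟨0, 1, by rw [hy]; simp⟩
  · intro r
    exact ⟨r, 0, by simp⟩
  · rintro y z - - ⟨r, s, rfl⟩ ⟨r', s', rfl⟩
    exact ⟨r + r', s + s', by rw [map_add, map_add]; ring⟩
  · rintro y z - - ⟨r, s, rfl⟩ ⟨r', s', rfl⟩
    refine ⟨r * r' - s * s' * v, r * s' + s * r' - s * s' * u, ?_⟩
    simp only [map_add, map_sub, map_mul]
    linear_combination (algebraMap F E s * algebraMap F E s') * h

/-- approximation of the local elements -/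
theorem approx {l : ℕ} [Fact l.Prime] {α β : PadicAlgCl l} (u v : ℤ)
    (h : α ^ 2 + (u : PadicAlgCl l) * α + (v : PadicAlgCl l) = 0)
    (hβ : ∀ σ : PadicAlgCl l ≃ₐ[ℚ_[l]] PadicAlgCl l, σ α = α → σ β = β) :
    ∃ r s : ℚ, ‖(r : PadicAlgCl l) + (s : PadicAlgCl l) * α‖ = ‖β‖ := by
  by_cases h0 : β = 0
  · exact ⟨0, 0, by rw [h0]; simp⟩
  have hpos : 0 < ‖β‖ := norm_pos_iff.2 h0
  have h1 : β ∈ IntermediateField.adjoin ℚ_[l] ({α} : Set (PadicAlgCl l)) := by
    rw [← InfiniteGalois.fixedField_fixingSubgroup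
      (IntermediateField.adjoin ℚ_[l] ({α} : Set (PadicAlgCl l)))]
    rw [IntermediateField.mem_fixedField_iff]
    intro σ hσ
    refine hβ σ ?_
    rw [IntermediateField.mem_fixingSubgroup_iff] at hσ
    exact hσ α (IntermediateField.mem_adjoin_simple_self _ _)
  obtain ⟨x, y, hxy⟩ := quad_rep (F := ℚ_[l]) (u : ℚ_[l]) (v : ℚ_[l]) (by
    rw [map_intCast, map_intCast]
    exact h) h1
  obtain ⟨r, hr⟩ := Padic.rat_dense l x hpos
  obtain ⟨s, hs⟩ := Padic.rat_dense l y (ε := ‖β‖ / (‖α‖ + 1)) (by positivity)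
  refine ⟨r, s, ?_⟩
  have hr' : ((r : ℚ_[l]) : PadicAlgCl l) = (r : PadicAlgCl l) := map_ratCast _ r
  have hs' : ((s : ℚ_[l]) : PadicAlgCl l) = (s : PadicAlgCl l) := map_ratCast _ s
  have h2 : ‖β - ((r : PadicAlgCl l) + (s : PadicAlgCl l) * α)‖ < ‖β‖ := by
    have e : β - ((r : PadicAlgCl l) + (s : PadicAlgCl l) * α) =
        ((x - r : ℚ_[l]) : PadicAlgCl l) + ((y - s : ℚ_[l]) : PadicAlgCl l) * α := by
      rw [map_sub, map_sub, hr', hs', hxy]
      ring
    rw [e]
    refine lt_of_le_of_lt (PadicAlgCl.isNonarchimedean l _ _) (max_lt ?_ ?_)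
    · rw [PadicAlgCl.norm_extends]
      exact hr
    · rw [norm_mul, PadicAlgCl.norm_extends]
      have h3 : 0 < ‖α‖ + 1 := by positivity
      calc ‖y - s‖ * ‖α‖ ≤ ‖y - s‖ * (‖α‖ + 1) :=
            mul_le_mul_of_nonneg_left (by linarith) (norm_nonneg _)
        _ < ‖β‖ / (‖α‖ + 1) * (‖α‖ + 1) := mul_lt_mul_of_pos_right hs h3
        _ = ‖β‖ := div_mul_cancel₀ _ h3.ne'
  have h3 : ‖β + (-(β - ((r : PadicAlgCl l) + (s : PadicAlgCl l) * α)))‖ =
      max ‖β‖ ‖-(β - ((r : PadicAlgCl l) + (s : PadicAlgCl l) * α))‖ :=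
    IsUltrametricDist.norm_add_eq_max_of_norm_ne_norm (by rw [norm_neg]; exact h2.ne')
  rw [norm_neg, max_eq_left h2.le] at h3
  rw [← h3]
  congr 1
  ring

theorem qb_alg : Algebra.IsAlgebraic ℚ Qb := algebraicClosure.isAlgebraic ℚ Om

theorem qb_closed : IsAlgClosed Qb := (algebraicClosure.isAlgClosure ℚ Om).isAlgClosed

theorem qb_normal : Normal ℚ Qb := by
  haveI := qb_alg
  haveI := qb_closed
  haveI : IsAlgClosure ℚ Qb := ⟨qb_closed, qb_alg⟩
  exact IsAlgClosure.normal ℚ Qb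

theorem int_a (a : Qb) : IsIntegral ℚ a := (qb_alg.isAlgebraic a).isIntegral

/-- the field of `a` -/
abbrev Kf (a : Qb) : IntermediateField ℚ Qb := IntermediateField.adjoin ℚ ({a} : Set Qb)

theorem fd (a : Qb) : FiniteDimensional ℚ (Kf a) := IntermediateField.adjoin.finiteDimensional (int_a a)

theorem nf (a : Qb) : NumberField (Kf a) := by
  haveI := fd a
  exact {}

theorem gal {a : Qb} (h : IQ a) : IsGalois ℚ (Kf a) := by
  haveI := qb_normal
  haveI := fd a
  obtain ⟨u, v, huv, -⟩ := h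
  have hn : Normal ℚ (Kf a) := by
    refine IntermediateField.normal_iff_forall_map_le.2 ?_
    intro σ
    rw [IntermediateField.adjoin_map, IntermediateField.adjoin_le_iff]
    rintro x ⟨y, hy, rfl⟩
    rw [Set.mem_singleton_iff] at hy
    subst hy
    have ha : y ∈ Kf y := IntermediateField.mem_adjoin_simple_self ℚ y
    have h1 : (σ y) ^ 2 + (u : Qb) * σ y + (v : Qb) = 0 := by
      have h2 := congrArg σ huv
      simpa using h2
    have h2 : (σ y - y) * (σ y + y + (u : Qb)) = 0 := by linear_combination h1 - huv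
    rcases mul_eq_zero.1 h2 with h3 | h3
    · have h4 : σ y = y := sub_eq_zero.1 h3
      show σ y ∈ Kf y
      rw [h4]
      exact ha
    · have h4 : σ y = -y - (u : Qb) := by linear_combination h3
      show σ y ∈ Kf y
      rw [h4]
      exact sub_mem (neg_mem ha) (intCast_mem _ _)
  exact ⟨⟩

theorem norm_emb {a : Qb} (h : IQ a) (φ ψ : Kf a →+* ℂ) (x : Kf a) : ‖ψ x‖ = ‖φ x‖ := by
  obtain ⟨u, v, huv, hd⟩ := h
  obtain ⟨g, hg⟩ : ∃ g : Kf a, (g : Qb) = a := ⟨⟨a, IntermediateField.mem_adjoin_simple_self ℚ a⟩, rfl⟩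
  have h0 : g ^ 2 + (u : Kf a) * g + (v : Kf a) = 0 := by
    apply Subtype.ext
    push_cast
    rw [hg]
    exact huv
  obtain ⟨r, s, hrs⟩ := quad_rep (F := ℚ) (u : ℚ) (v : ℚ) (by
    rw [map_intCast, map_intCast]
    exact huv) x.2
  have hx : x = (r : Kf a) + (s : Kf a) * g := by
    apply Subtype.ext
    rw [hrs]
    push_cast
    rw [hg]
    simp
  have root : ∀ φ : Kf a →+* ℂ, (φ g) ^ 2 + (u : ℂ) * φ g + (v : ℂ) = 0 := by
    intro φ
    have h2 := congrArg φ h0
    simpa using h2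
  have hr1 := root φ
  have hr2 := root ψ
  have hd' : (u : ℝ) ^ 2 ≤ 4 * v := by exact_mod_cast hd
  have hconj : (starRingEnd ℂ) (φ g) = -(φ g) - u := by
    have him := congrArg Complex.im hr1
    have hre := congrArg Complex.re hr1
    simp [pow_two] at him hre
    have h3 : 2 * (φ g).re = -(u : ℝ) := by
      by_cases hy : (φ g).im = 0
      · rw [hy] at hre
        nlinarith [sq_nonneg (2 * (φ g).re + u)]
      · have h4 : (φ g).im * (2 * (φ g).re + u) = 0 := by linarith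
        rcases mul_eq_zero.1 h4 with h5 | h5
        · exact absurd h5 hy
        · linarith
    apply Complex.ext
    · simp
      linarith
    · simp
  have hfact : (ψ g - φ g) * (ψ g - (starRingEnd ℂ) (φ g)) = 0 := by
    rw [hconj]
    linear_combination hr2 - hr1
  have hφ : φ x = (r : ℂ) + (s : ℂ) * φ g := by rw [hx]; simp
  have hψ : ψ x = (r : ℂ) + (s : ℂ) * ψ g := by rw [hx]; simp
  rcases mul_eq_zero.1 hfact with h3 | h3
  · rw [hφ, hψ, sub_eq_zero.1 h3]
  · rw [hψ, sub_eq_zero.1 h3, ← Complex.norm_conj (φ x), hφ]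
    simp

theorem units_tors {a : Qb} (h : IQ a) : ∃ w : ℕ, 0 < w ∧ ∀ x : (𝓞 (Kf a))ˣ, x ^ w = 1 := by
  haveI := nf a
  haveI : Finite (NumberField.Units.torsion (Kf a)) := inferInstance
  haveI := Fintype.ofFinite (NumberField.Units.torsion (Kf a))
  refine ⟨Fintype.card (NumberField.Units.torsion (Kf a)), Fintype.card_pos, fun x => ?_⟩
  have hx : x ∈ NumberField.Units.torsion (Kf a) := by
    rw [NumberField.Units.mem_torsion]
    let w₀ : NumberField.InfinitePlace (Kf a) := Classical.arbitrary _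
    obtain ⟨c, hc⟩ : ∃ c : ℝ, c = w₀ ((x : 𝓞 (Kf a)) : Kf a) := ⟨_, rfl⟩
    have hall : ∀ w : NumberField.InfinitePlace (Kf a), w ((x : 𝓞 (Kf a)) : Kf a) = c := by
      intro w
      rw [hc, ← NumberField.InfinitePlace.norm_embedding_eq, ← NumberField.InfinitePlace.norm_embedding_eq]
      exact norm_emb h _ _ _
    have hc0 : 0 ≤ c := by
      rw [hc, ← NumberField.InfinitePlace.norm_embedding_eq]
      exact norm_nonneg _
    have h1 := NumberField.InfinitePlace.prod_eq_abs_norm (K := Kf a) ((x : 𝓞 (Kf a)) : Kf a)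
    have h2 : |Algebra.norm ℚ ((x : 𝓞 (Kf a)) : Kf a)| = 1 :=
      (NumberField.isUnit_iff_norm (K := Kf a)).1 x.isUnit
    rw [h2, Finset.prod_congr rfl (fun w _ => by rw [hall w])] at h1
    rw [Finset.prod_pow_eq_pow_sum] at h1
    have h3 : (∑ w : NumberField.InfinitePlace (Kf a), w.mult) ≠ 0 := by
      rw [NumberField.InfinitePlace.sum_mult_eq]
      exact Module.finrank_pos.ne'
    have h4 : c = 1 := by
      have h5 : c ^ (∑ w : NumberField.InfinitePlace (Kf a), w.mult) = 1 := by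
        rw [h1]
        norm_num
      exact (pow_eq_one_iff_of_nonneg hc0 h3).1 h5
    intro w
    rw [hall w, h4]
  have h1 : (⟨x, hx⟩ : NumberField.Units.torsion (Kf a)) ^
    Fintype.card (NumberField.Units.torsion (Kf a)) = 1 := pow_card_eq_one
  exact congrArg Subtype.val h1

/-- **Task UNIT0.** -/
theorem unit0 : S_UNIT0 := by
  intro a ha
  haveI := nf a
  haveI := gal ha
  haveI := qb_alg
  obtain ⟨w, hw, hu⟩ := units_tors ha
  obtain ⟨M, hM, H⟩ := abs_main (K := Kf a) w hw hu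
  refine ⟨M, hM, ?_⟩
  intro p k hp A hA0 hA hloc
  obtain ⟨B, hB⟩ := H (p ^ k) (pow_pos hp.pos k) ⟨A, hA⟩ (fun h0 => hA0 (congrArg Subtype.val h0)) (by
    intro l hl j
    letI : Algebra (Kf a) (AlgebraicClosure ℚ_[l]) := j.toAlgebra
    haveI : Algebra.IsAlgebraic (Kf a) Qb := Algebra.IsAlgebraic.tower_top (K := ℚ) (Kf a)
    let ι₀ : Qb →ₐ[Kf a] AlgebraicClosure ℚ_[l] := IsAlgClosed.lift
    let ι : Qb →+* AlgebraicClosure ℚ_[l] := ι₀.toRingHom
    have hι : ∀ x : Kf a, ι (x : Qb) = j x := fun x => ι₀.commutes x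
    obtain ⟨β, hβ1, hβ2⟩ := hloc l ι
    obtain ⟨u, v, huv, -⟩ := ha
    have h1 : (ι a) ^ 2 + (u : PadicAlgCl l) * ι a + (v : PadicAlgCl l) = 0 := by
      have h2 := congrArg ι huv
      rw [map_add, map_add, map_mul, map_pow, map_intCast, map_intCast, map_zero] at h2
      exact h2
    obtain ⟨r, s, hrs⟩ := approx u v h1 hβ1
    obtain ⟨g, hg⟩ : ∃ g : Kf a, (g : Qb) = a :=
      ⟨⟨a, IntermediateField.mem_adjoin_simple_self ℚ a⟩, rfl⟩
    refine ⟨(r : Kf a) + (s : Kf a) * g, ?_⟩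
    have h2 : j ((r : Kf a) + (s : Kf a) * g) = (r : PadicAlgCl l) + (s : PadicAlgCl l) * ι a := by
      rw [map_add, map_mul, map_ratCast, map_ratCast, ← hι g, hg]
    rw [h2, hrs]
    have h3 : j ⟨A, hA⟩ = ι A := (hι ⟨A, hA⟩).symm
    rw [h3]
    rw [PadicAlgCl.valuation_def, PadicAlgCl.valuation_def] at hβ2
    have h4 := congrArg (fun t : ℝ≥0 => (t : ℝ)) hβ2
    simp only [NNReal.coe_pow, coe_nnnorm] at h4
    exact h4)
  exact ⟨(B : Qb), B.2, congrArg Subtype.val hB⟩

end Pool.Agent.H577.Kim.D903
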